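import Mathlib

/-!
# Renormings that fail the approximation property: definitions
-/

noncomputable section

namespace Pool.Agent.Helper81.MapRenorm

/-- `N` is equivalent to the given norm of `W` (so in particular `N` is a norm). -/
def IsEquivNorm {𝕜 : Type*} [RCLike 𝕜] {W : Type*} [NormedAddCommGroup W] [NormedSpace 𝕜 W]
    (N : Seminorm 𝕜 W) : Prop :=
  ∃ a b : ℝ, 0 < a ∧ ∀ x, a * ‖x‖ ≤ N x ∧ N x ≤ b * ‖x‖

/-- The `lam`-approximation property of the space `W` under the norm `N` (to be used for a norm `N`
equivalent to the given norm of `W`, so that compact sets and bounded operators are the same for both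
norms): for every compact set `K` and every `ε > 0` there is a bounded linear operator `T` of finite
rank with `N (T x) ≤ lam * N x` for all `x`, and `N (T x - x) ≤ ε` for all `x ∈ K`.  The metric
approximation property is the case `lam = 1`. -/
def LambdaAP {𝕜 : Type*} [RCLike 𝕜] {W : Type*} [NormedAddCommGroup W] [NormedSpace 𝕜 W]
    (N : Seminorm 𝕜 W) (lam : ℝ) : Prop :=
  ∀ K : Set W, IsCompact K → ∀ ε : ℝ, 0 < ε → ∃ T : W →L[𝕜] W,
    FiniteDimensional 𝕜 (LinearMap.range (T : W →ₗ[𝕜] W)) ∧
      (∀ x, N (T x) ≤ lam * N x) ∧ ∀ x ∈ K, N (T x - x) ≤ ε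

/-- `W` has an equivalent norm `N` under which it fails the `lam`-approximation property for every
`lam ≤ lam₀`.  For `lam₀ ≥ 1` this says in particular that some renorming of `W` fails the metric
approximation property. -/
def HasRenormingFailingAP (𝕜 : Type*) [RCLike 𝕜] (W : Type*) [NormedAddCommGroup W]
    [NormedSpace 𝕜 W] (lam₀ : ℝ) : Prop :=
  ∃ N : Seminorm 𝕜 W, IsEquivNorm N ∧ ∀ lam : ℝ, lam ≤ lam₀ → ¬ LambdaAP N lam

end Pool.Agent.Helper81.MapRenorm
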