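import Mathlib
import Pool.Agent.Helper81.MapRenorm.Defs

/-!
# Equivalent norms without the metric approximation property: the common part

* `Om` is the disjoint union of the finite tori `(ZMod (n+1))^2`, with two shears `B1`, `B2`.
* `kernel_contra`: there is no finitely additive kernel on `Om` which is nearly positive, nearly
  a probability, nearly equivariant under the shears, nearly local, and has no mass on the diagonal
  locations over a large prime fibre (the cone argument).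
* `msemi`: the marked norm on a normed space, given by finitely many marked points and marked
  subspaces; `near`: operators of marked norm at most `1 + ε` which nearly fix the marked points
  nearly preserve the marked subspaces.
* `LambdaAP`: the `lam`-approximation property under an equivalent norm.
-/

open Finset
open scoped ENNReal

noncomputable section

namespace Pool.Agent.Helper81.MapRenorm

section ConePart

/-- The index set: pairs of residues modulo `n + 1`, for all `n`. -/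
abbrev Om : Type := (n : ℕ) × (ZMod (n + 1) × ZMod (n + 1))

/-- first coordinate as a point of `[0,1)` -/
def rx (z : Om) : ℚ := (z.2.1.val : ℚ) / (z.1 + 1)
/-- second coordinate as a point of `[0,1)` -/
def ry (z : Om) : ℚ := (z.2.2.val : ℚ) / (z.1 + 1)

/-- first shear -/
def B1 : Equiv.Perm Om := Equiv.sigmaCongrRight fun n =>
  { toFun := fun p => (p.1 + p.2, p.2)
    invFun := fun p => (p.1 - p.2, p.2)
    left_inv := fun p => by simp
    right_inv := fun p => by simp }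

/-- second shear -/
def B2 : Equiv.Perm Om := Equiv.sigmaCongrRight fun n =>
  { toFun := fun p => (p.1, p.2 + p.1)
    invFun := fun p => (p.1, p.2 - p.1)
    left_inv := fun p => by simp
    right_inv := fun p => by simp }

lemma val_add_div (n : ℕ) (a b : ZMod (n + 1)) :
    ∃ k : ℤ, (((a + b).val : ℚ) / (n + 1)) = (a.val : ℚ) / (n + 1) + (b.val : ℚ) / (n + 1) - k ∧ 0 ≤ k ∧ k ≤ 1 := by
  have hn : (0 : ℚ) < (n : ℚ) + 1 := by positivity
  rw [ZMod.val_add]
  have ha := ZMod.val_lt a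
  have hb := ZMod.val_lt b
  rcases Nat.lt_or_ge (a.val + b.val) (n + 1) with h | h
  · refine ⟨0, ?_, le_rfl, by norm_num⟩
    rw [Nat.mod_eq_of_lt h]
    push_cast
    ring
  · refine ⟨1, ?_, by norm_num, le_rfl⟩
    have h2 : (a.val + b.val) % (n + 1) = a.val + b.val - (n + 1) := by
      rw [Nat.mod_eq_sub_mod h, Nat.mod_eq_of_lt (by omega)]
    rw [h2, Nat.cast_sub h]
    push_cast
    field_simp

/-- difference of first coordinates -/
def w1 (z y : Om) : ℚ := rx z - rx y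
/-- difference of second coordinates -/
def w2 (z y : Om) : ℚ := ry z - ry y

/-- both differences are smaller than a quarter -/
def good (z y : Om) : Prop := |w1 z y| < 1 / 4 ∧ |w2 z y| < 1 / 4

lemma w_B1 {z y : Om} (h : good z y) (h' : good (B1 z) (B1 y)) :
    w1 (B1 z) (B1 y) = w1 z y + w2 z y ∧ w2 (B1 z) (B1 y) = w2 z y := by
  refine ⟨?_, rfl⟩
  obtain ⟨k, hk, hk0, hk1⟩ := val_add_div z.1 z.2.1 z.2.2
  obtain ⟨l, hl, hl0, hl1⟩ := val_add_div y.1 y.2.1 y.2.2
  have hz : rx (B1 z) = rx z + ry z - k := hk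
  have hy : rx (B1 y) = rx y + ry y - l := hl
  have h1 := h.1
  have h2 := h.2
  have h3 := h'.1
  have e : w1 (B1 z) (B1 y) = w1 z y + w2 z y - ((k - l : ℤ) : ℚ) := by
    unfold w1 w2
    rw [hz, hy]
    push_cast
    ring
  rw [e] at h3 ⊢
  rw [abs_lt] at h1 h2 h3
  have h4 : ((k - l : ℤ) : ℚ) < 1 := by linarith [h1.2, h2.2, h3.1]
  have h5 : (-1 : ℚ) < ((k - l : ℤ) : ℚ) := by linarith [h1.1, h2.1, h3.2]
  have h6 : k - l < 1 := by exact_mod_cast h4
  have h7 : -1 < k - l := by exact_mod_cast h5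
  have h8 : k - l = 0 := by omega
  rw [h8]
  simp

lemma w_B2 {z y : Om} (h : good z y) (h' : good (B2 z) (B2 y)) :
    w1 (B2 z) (B2 y) = w1 z y ∧ w2 (B2 z) (B2 y) = w2 z y + w1 z y := by
  refine ⟨rfl, ?_⟩
  obtain ⟨k, hk, hk0, hk1⟩ := val_add_div z.1 z.2.2 z.2.1
  obtain ⟨l, hl, hl0, hl1⟩ := val_add_div y.1 y.2.2 y.2.1
  have hz : ry (B2 z) = ry z + rx z - k := hk
  have hy : ry (B2 y) = ry y + rx y - l := hl
  have h1 := h.1
  have h2 := h.2
  have h3 := h'.2
  have e : w2 (B2 z) (B2 y) = w2 z y + w1 z y - ((k - l : ℤ) : ℚ) := by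
    unfold w1 w2
    rw [hz, hy]
    push_cast
    ring
  rw [e] at h3 ⊢
  rw [abs_lt] at h1 h2 h3
  have h4 : ((k - l : ℤ) : ℚ) < 1 := by linarith [h1.2, h2.2, h3.1]
  have h5 : (-1 : ℚ) < ((k - l : ℤ) : ℚ) := by linarith [h1.1, h2.1, h3.2]
  have h6 : k - l < 1 := by exact_mod_cast h4
  have h7 : -1 < k - l := by exact_mod_cast h5
  have h8 : k - l = 0 := by omega
  rw [h8]
  simp

/-- The cone argument for finitely additive kernels. -/
theorem kernel_contra (m : Om → Set Om → ℝ) (η : ℝ) (hη : η < 1 / 40)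
    (hadd : ∀ z A B, Disjoint A B → m z (A ∪ B) = m z A + m z B)
    (h1 : ∀ z, 1 - η ≤ m z Set.univ)
    (h2 : ∀ z A, -η ≤ m z A)
    (h3a : ∀ z A, |m (B1 z) (B1 '' A) - m z A| ≤ η)
    (h3b : ∀ z A, |m (B2 z) (B2 '' A) - m z A| ≤ η)
    (h4 : ∀ z A, (∀ y ∈ A, ¬ good z y) → m z A ≤ η)
    (X : Finset Om) (hX : X.Nonempty) (hX1 : ∀ z, z ∈ X ↔ B1 z ∈ X) (hX2 : ∀ z, z ∈ X ↔ B2 z ∈ X)
    (h5 : ∀ z ∈ X, m z {y | w1 z y = 0 ∧ w2 z y = 0} ≤ η) : False := by
  -- monotonicity up to η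
  have hmono : ∀ z A B, A ⊆ B → m z A ≤ m z B + η := by
    intro z A B hAB
    have h := hadd z A (B \ A) Set.disjoint_sdiff_right
    rw [Set.union_sdiff_cancel hAB] at h
    have := h2 z (B \ A)
    linarith
  -- the transfer principle
  have htrans : ∀ (β : Equiv.Perm Om), (∀ z A, |m (β z) (β '' A) - m z A| ≤ η) →
      ∀ z A C, (∀ y ∈ A, good (β z) (β y) → β y ∈ C) → m z A ≤ m (β z) C + 3 * η := by
    intro β hβ z A C hAC
    have e1 := hβ z A
    rw [abs_le] at e1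
    set P : Set Om := {y | y ∈ β '' A ∧ good (β z) y} with hP
    set Q : Set Om := {y | y ∈ β '' A ∧ ¬ good (β z) y} with hQ
    have hPQ : β '' A = P ∪ Q := by
      ext y
      simp only [hP, hQ, Set.mem_union, Set.mem_ofPred_eq]
      tauto
    have hdisj : Disjoint P Q := by
      rw [Set.disjoint_left]
      intro y hy hy'
      exact hy'.2 hy.2
    have e2 := hadd (β z) P Q hdisj
    have e3 : m (β z) Q ≤ η := h4 (β z) Q (fun y hy => hy.2)
    have e4 : m (β z) P ≤ m (β z) C + η := by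
      apply hmono
      rintro y ⟨⟨x, hx, rfl⟩, hg⟩
      exact hAC x hx hg
    rw [hPQ] at e1
    linarith [e1.1]
  -- inverse near-invariance
  have hinv : ∀ (β : Equiv.Perm Om), (∀ z A, |m (β z) (β '' A) - m z A| ≤ η) →
      (∀ z A, |m (β.symm z) (β.symm '' A) - m z A| ≤ η) := by
    intro β hβ z A
    have := hβ (β.symm z) (β.symm '' A)
    rw [Equiv.apply_symm_apply, ← Set.image_comp] at this
    have e : (β ∘ β.symm) '' A = A := by
      simp
    rw [e, abs_sub_comm] at this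
    exact this
  -- sums over X
  have hsum : ∀ (β : Equiv.Perm Om), (∀ z, z ∈ X ↔ β z ∈ X) → ∀ f : Om → ℝ, ∑ z ∈ X, f (β z) = ∑ z ∈ X, f z := by
    intro β hβ f
    refine Finset.sum_bij (fun z _ => β z) (fun z hz => (hβ z).mp hz) (fun a _ b _ h => β.injective h) ?_ (fun _ _ => rfl)
    intro b hb
    exact ⟨β.symm b, (hβ _).mpr (by simpa using hb), by simp⟩
  have hXs1 : ∀ z, z ∈ X ↔ B1.symm z ∈ X := fun z => by
    have := hX1 (B1.symm z)
    rw [Equiv.apply_symm_apply] at this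
    exact this.symm
  have hXs2 : ∀ z, z ∈ X ↔ B2.symm z ∈ X := fun z => by
    have := hX2 (B2.symm z)
    rw [Equiv.apply_symm_apply] at this
    exact this.symm
  -- the cones
  let C : Om → Set Om := fun z => {y | good z y ∧ 0 < w1 z y * w2 z y}
  let C1 : Om → Set Om := fun z => {y | good z y ∧ 0 < w1 z y * w2 z y ∧ |w2 z y| < |w1 z y|}
  let C2 : Om → Set Om := fun z => {y | good z y ∧ 0 < w1 z y * w2 z y ∧ |w1 z y| < |w2 z y|}
  let D : Om → Set Om := fun z => {y | good z y ∧ w1 z y * w2 z y < 0}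
  let D1 : Om → Set Om := fun z => {y | good z y ∧ w1 z y * w2 z y < 0 ∧ |w2 z y| < |w1 z y|}
  let D2 : Om → Set Om := fun z => {y | good z y ∧ w1 z y * w2 z y < 0 ∧ |w1 z y| < |w2 z y|}
  let E1 : Om → Set Om := fun z => {y | good z y ∧ w1 z y ≠ 0 ∧ w2 z y = 0}
  let E2 : Om → Set Om := fun z => {y | good z y ∧ w1 z y = 0 ∧ w2 z y ≠ 0}
  let Z : Om → Set Om := fun z => {y | good z y ∧ w1 z y = 0 ∧ w2 z y = 0}
  let Bd : Om → Set Om := fun z => {y | ¬ good z y}
  -- pointwise transfer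
  have tC1 : ∀ z, m z (C z) ≤ m (B1 z) (C1 (B1 z)) + 3 * η := by
    intro z
    refine htrans B1 h3a z _ _ ?_
    rintro y ⟨hg, hpos⟩ hg'
    obtain ⟨e1, e2⟩ := w_B1 hg hg'
    refine ⟨hg', ?_, ?_⟩
    · rw [e1, e2]
      have : w2 z y ≠ 0 := by rintro h; rw [h] at hpos; simp at hpos
      have h3 : 0 < w2 z y * w2 z y := mul_self_pos.mpr this
      nlinarith
    · rw [e1, e2]
      rcases (mul_pos_iff.mp hpos) with ⟨ha, hb⟩ | ⟨ha, hb⟩
      · rw [abs_of_pos hb, abs_of_pos (by linarith)]; linarith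
      · rw [abs_of_neg hb, abs_of_neg (by linarith)]; linarith
  have tC2 : ∀ z, m z (C z) ≤ m (B2 z) (C2 (B2 z)) + 3 * η := by
    intro z
    refine htrans B2 h3b z _ _ ?_
    rintro y ⟨hg, hpos⟩ hg'
    obtain ⟨e1, e2⟩ := w_B2 hg hg'
    refine ⟨hg', ?_, ?_⟩
    · rw [e1, e2]
      have : w1 z y ≠ 0 := by rintro h; rw [h] at hpos; simp at hpos
      have h3 : 0 < w1 z y * w1 z y := mul_self_pos.mpr this
      nlinarith
    · rw [e1, e2]
      rcases (mul_pos_iff.mp hpos) with ⟨ha, hb⟩ | ⟨ha, hb⟩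
      · rw [abs_of_pos ha, abs_of_pos (by linarith)]; linarith
      · rw [abs_of_neg ha, abs_of_neg (by linarith)]; linarith
  have wB1' : ∀ {z y : Om}, good z y → good (B1.symm z) (B1.symm y) →
      w1 (B1.symm z) (B1.symm y) = w1 z y - w2 z y ∧ w2 (B1.symm z) (B1.symm y) = w2 z y := by
    intro z y hg hg'
    have := w_B1 hg' (by rw [Equiv.apply_symm_apply, Equiv.apply_symm_apply]; exact hg)
    rw [Equiv.apply_symm_apply, Equiv.apply_symm_apply] at this
    obtain ⟨e1, e2⟩ := this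
    constructor <;> linarith
  have wB2' : ∀ {z y : Om}, good z y → good (B2.symm z) (B2.symm y) →
      w1 (B2.symm z) (B2.symm y) = w1 z y ∧ w2 (B2.symm z) (B2.symm y) = w2 z y - w1 z y := by
    intro z y hg hg'
    have := w_B2 hg' (by rw [Equiv.apply_symm_apply, Equiv.apply_symm_apply]; exact hg)
    rw [Equiv.apply_symm_apply, Equiv.apply_symm_apply] at this
    obtain ⟨e1, e2⟩ := this
    constructor <;> linarith
  have tD1 : ∀ z, m z (D z) ≤ m (B1.symm z) (D1 (B1.symm z)) + 3 * η := by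
    intro z
    refine htrans B1.symm (hinv B1 h3a) z _ _ ?_
    rintro y ⟨hg, hneg⟩ hg'
    obtain ⟨e1, e2⟩ := wB1' hg hg'
    refine ⟨hg', ?_, ?_⟩
    · rw [e1, e2]
      have : w2 z y ≠ 0 := by rintro h; rw [h] at hneg; simp at hneg
      have h3 : 0 < w2 z y * w2 z y := mul_self_pos.mpr this
      nlinarith
    · rw [e1, e2]
      rcases (mul_neg_iff.mp hneg) with ⟨ha, hb⟩ | ⟨ha, hb⟩
      · rw [abs_of_neg hb, abs_of_pos (by linarith)]; linarith
      · rw [abs_of_pos hb, abs_of_neg (by linarith)]; linarith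
  have tD2 : ∀ z, m z (D z) ≤ m (B2.symm z) (D2 (B2.symm z)) + 3 * η := by
    intro z
    refine htrans B2.symm (hinv B2 h3b) z _ _ ?_
    rintro y ⟨hg, hneg⟩ hg'
    obtain ⟨e1, e2⟩ := wB2' hg hg'
    refine ⟨hg', ?_, ?_⟩
    · rw [e1, e2]
      have : w1 z y ≠ 0 := by rintro h; rw [h] at hneg; simp at hneg
      have h3 : 0 < w1 z y * w1 z y := mul_self_pos.mpr this
      nlinarith
    · rw [e1, e2]
      rcases (mul_neg_iff.mp hneg) with ⟨ha, hb⟩ | ⟨ha, hb⟩
      · rw [abs_of_pos ha, abs_of_neg (by linarith)]; linarith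
      · rw [abs_of_neg ha, abs_of_pos (by linarith)]; linarith
  have tE1 : ∀ z, m z (E1 z) ≤ m (B2 z) (C (B2 z)) + 3 * η := by
    intro z
    refine htrans B2 h3b z _ _ ?_
    rintro y ⟨hg, hn, h0⟩ hg'
    obtain ⟨e1, e2⟩ := w_B2 hg hg'
    refine ⟨hg', ?_⟩
    rw [e1, e2, h0, zero_add]
    exact mul_self_pos.mpr hn
  have tE2 : ∀ z, m z (E2 z) ≤ m (B1 z) (C (B1 z)) + 3 * η := by
    intro z
    refine htrans B1 h3a z _ _ ?_
    rintro y ⟨hg, h0, hn⟩ hg'
    obtain ⟨e1, e2⟩ := w_B1 hg hg'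
    refine ⟨hg', ?_⟩
    rw [e1, e2, h0, zero_add]
    exact mul_self_pos.mpr hn
  -- the two halves of a cone
  have hC12 : ∀ z, m z (C1 z) + m z (C2 z) ≤ m z (C z) + η := by
    intro z
    rw [← hadd z (C1 z) (C2 z)]
    · apply hmono
      rintro y (hy | hy)
      · exact ⟨hy.1, hy.2.1⟩
      · exact ⟨hy.1, hy.2.1⟩
    · rw [Set.disjoint_left]
      intro y hy hy'
      exact lt_asymm hy.2.2 hy'.2.2
  have hD12 : ∀ z, m z (D1 z) + m z (D2 z) ≤ m z (D z) + η := by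
    intro z
    rw [← hadd z (D1 z) (D2 z)]
    · apply hmono
      rintro y (hy | hy)
      · exact ⟨hy.1, hy.2.1⟩
      · exact ⟨hy.1, hy.2.1⟩
    · rw [Set.disjoint_left]
      intro y hy hy'
      exact lt_asymm hy.2.2 hy'.2.2
  -- sums
  set N : ℝ := (X.card : ℝ) with hN
  have hNpos : 0 < N := by rw [hN]; exact_mod_cast hX.card_pos
  have hconst : ∀ c : ℝ, ∑ z ∈ X, c = N * c := by intro c; rw [Finset.sum_const, nsmul_eq_mul]
  set c : ℝ := ∑ z ∈ X, m z (C z) with hc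
  set d : ℝ := ∑ z ∈ X, m z (D z) with hd
  have sC1 : c ≤ ∑ z ∈ X, m z (C1 z) + N * (3 * η) := by
    rw [← hsum B1 hX1 (fun z => m z (C1 z)), ← hconst, ← Finset.sum_add_distrib]
    exact Finset.sum_le_sum fun z _ => tC1 z
  have sC2 : c ≤ ∑ z ∈ X, m z (C2 z) + N * (3 * η) := by
    rw [← hsum B2 hX2 (fun z => m z (C2 z)), ← hconst, ← Finset.sum_add_distrib]
    exact Finset.sum_le_sum fun z _ => tC2 z
  have sC : ∑ z ∈ X, m z (C1 z) + ∑ z ∈ X, m z (C2 z) ≤ c + N * η := by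
    rw [← hconst, ← Finset.sum_add_distrib, ← Finset.sum_add_distrib]
    exact Finset.sum_le_sum fun z _ => hC12 z
  have hcle : c ≤ N * (7 * η) := by linarith
  have sD1 : d ≤ ∑ z ∈ X, m z (D1 z) + N * (3 * η) := by
    rw [← hsum B1.symm hXs1 (fun z => m z (D1 z)), ← hconst, ← Finset.sum_add_distrib]
    exact Finset.sum_le_sum fun z _ => tD1 z
  have sD2 : d ≤ ∑ z ∈ X, m z (D2 z) + N * (3 * η) := by
    rw [← hsum B2.symm hXs2 (fun z => m z (D2 z)), ← hconst, ← Finset.sum_add_distrib]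
    exact Finset.sum_le_sum fun z _ => tD2 z
  have sD : ∑ z ∈ X, m z (D1 z) + ∑ z ∈ X, m z (D2 z) ≤ d + N * η := by
    rw [← hconst, ← Finset.sum_add_distrib, ← Finset.sum_add_distrib]
    exact Finset.sum_le_sum fun z _ => hD12 z
  have hdle : d ≤ N * (7 * η) := by linarith
  have sE1 : ∑ z ∈ X, m z (E1 z) ≤ c + N * (3 * η) := by
    rw [hc, ← hsum B2 hX2 (fun z => m z (C z)), ← hconst, ← Finset.sum_add_distrib]
    exact Finset.sum_le_sum fun z _ => tE1 z
  have sE2 : ∑ z ∈ X, m z (E2 z) ≤ c + N * (3 * η) := by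
    rw [hc, ← hsum B1 hX1 (fun z => m z (C z)), ← hconst, ← Finset.sum_add_distrib]
    exact Finset.sum_le_sum fun z _ => tE2 z
  have sZ : ∑ z ∈ X, m z (Z z) ≤ N * (2 * η) := by
    rw [← hconst]
    refine Finset.sum_le_sum fun z hz => ?_
    have e1 := h5 z hz
    have e2 := hmono z (Z z) {y | w1 z y = 0 ∧ w2 z y = 0} (fun y hy => hy.2)
    linarith
  have sB : ∑ z ∈ X, m z (Bd z) ≤ N * η := by
    rw [← hconst]
    exact Finset.sum_le_sum fun z _ => h4 z _ (fun y hy => hy)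
  -- the total mass
  have htot : ∀ z, m z Set.univ = m z (C z) + (m z (D z) + (m z (E1 z) + (m z (E2 z) + (m z (Z z) + m z (Bd z))))) := by
    intro z
    have d5 : Disjoint (Z z) (Bd z) := by
      rw [Set.disjoint_left]; intro y hy hy'; exact hy' hy.1
    have d4 : Disjoint (E2 z) (Z z ∪ Bd z) := by
      rw [Set.disjoint_left]; rintro y hy (hy' | hy')
      · exact hy.2.2 hy'.2.2
      · exact hy' hy.1
    have d3 : Disjoint (E1 z) (E2 z ∪ (Z z ∪ Bd z)) := by
      rw [Set.disjoint_left]; rintro y hy (hy' | hy' | hy')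
      · exact hy.2.1 hy'.2.1
      · exact hy.2.1 hy'.2.1
      · exact hy' hy.1
    have d2 : Disjoint (D z) (E1 z ∪ (E2 z ∪ (Z z ∪ Bd z))) := by
      rw [Set.disjoint_left]; rintro y hy (hy' | hy' | hy' | hy')
      · have := hy.2; rw [hy'.2.2, mul_zero] at this; exact lt_irrefl _ this
      · have := hy.2; rw [hy'.2.1, zero_mul] at this; exact lt_irrefl _ this
      · have := hy.2; rw [hy'.2.1, zero_mul] at this; exact lt_irrefl _ this
      · exact hy' hy.1
    have d1 : Disjoint (C z) (D z ∪ (E1 z ∪ (E2 z ∪ (Z z ∪ Bd z)))) := by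
      rw [Set.disjoint_left]; rintro y hy (hy' | hy' | hy' | hy' | hy')
      · exact lt_asymm hy.2 hy'.2
      · have := hy.2; rw [hy'.2.2, mul_zero] at this; exact lt_irrefl _ this
      · have := hy.2; rw [hy'.2.1, zero_mul] at this; exact lt_irrefl _ this
      · have := hy.2; rw [hy'.2.1, zero_mul] at this; exact lt_irrefl _ this
      · exact hy' hy.1
    rw [← hadd z _ _ d5, ← hadd z _ _ d4, ← hadd z _ _ d3, ← hadd z _ _ d2, ← hadd z _ _ d1]
    congr 1
    ext y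
    simp only [Set.mem_univ, Set.mem_union, true_iff]
    by_cases hg : good z y
    · rcases lt_trichotomy (w1 z y * w2 z y) 0 with h | h | h
      · exact Or.inr (Or.inl ⟨hg, h⟩)
      · rcases mul_eq_zero.mp h with h' | h'
        · by_cases h'' : w2 z y = 0
          · exact Or.inr (Or.inr (Or.inr (Or.inr (Or.inl ⟨hg, h', h''⟩))))
          · exact Or.inr (Or.inr (Or.inr (Or.inl ⟨hg, h', h''⟩)))
        · by_cases h'' : w1 z y = 0
          · exact Or.inr (Or.inr (Or.inr (Or.inr (Or.inl ⟨hg, h'', h'⟩))))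
          · exact Or.inr (Or.inr (Or.inl ⟨hg, h'', h'⟩))
      · exact Or.inl ⟨hg, h⟩
    · exact Or.inr (Or.inr (Or.inr (Or.inr (Or.inr hg))))
  have hfin : N * (1 - η) ≤ c + (d + (∑ z ∈ X, m z (E1 z) + (∑ z ∈ X, m z (E2 z) + (∑ z ∈ X, m z (Z z) + ∑ z ∈ X, m z (Bd z))))) := by
    rw [hc, hd, ← hconst, ← Finset.sum_add_distrib, ← Finset.sum_add_distrib, ← Finset.sum_add_distrib,
      ← Finset.sum_add_distrib, ← Finset.sum_add_distrib]
    refine Finset.sum_le_sum fun z _ => ?_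
    rw [← htot z]
    exact h1 z
  have hNη : N * η < N * (1 / 40) := mul_lt_mul_of_pos_left hη hNpos
  have q1 : N * (7 * η) = 7 * (N * η) := by ring
  have q2 : N * (3 * η) = 3 * (N * η) := by ring
  have q3 : N * (2 * η) = 2 * (N * η) := by ring
  have q4 : N * (1 - η) = N - N * η := by ring
  rw [q1] at hcle hdle
  rw [q2] at sE1 sE2
  rw [q3] at sZ
  rw [q4] at hfin
  linarith


end ConePart

section MarkPart

variable {𝕜 : Type*} [RCLike 𝕜] {W : Type*} [NormedAddCommGroup W] [NormedSpace 𝕜 W]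
  {I : Type*} [Fintype I]

/-- The cost of a decomposition `w = ∑ (t i • y i + h i) + remainder`. -/
def cost (y : I → W) (H : I → Submodule 𝕜 W) (w : W) (t : I → 𝕜) (h : (i : I) → H i) : ℝ :=
  ∑ i, max ‖t i‖ ‖(h i : W)‖ + 2 * ‖w - ∑ i, (t i • y i + (h i : W))‖

lemma cost_nonneg (y : I → W) (H : I → Submodule 𝕜 W) (w : W) (t : I → 𝕜) (h : (i : I) → H i) :
    0 ≤ cost y H w t h := by
  unfold cost
  have : 0 ≤ ∑ i, max ‖t i‖ ‖(h i : W)‖ := Finset.sum_nonneg fun i _ => le_max_of_le_left (norm_nonneg _)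
  positivity

/-- The marked norm: the infimum of the costs. -/
def mval (y : I → W) (H : I → Submodule 𝕜 W) (w : W) : ℝ :=
  ⨅ d : (I → 𝕜) × ((i : I) → H i), cost y H w d.1 d.2

lemma bdd (y : I → W) (H : I → Submodule 𝕜 W) (w : W) :
    BddBelow (Set.range fun d : (I → 𝕜) × ((i : I) → H i) => cost y H w d.1 d.2) :=
  ⟨0, by rintro _ ⟨d, rfl⟩; exact cost_nonneg _ _ _ _ _⟩

lemma mval_le (y : I → W) (H : I → Submodule 𝕜 W) (w : W) (t : I → 𝕜) (h : (i : I) → H i) :
    mval y H w ≤ cost y H w t h := ciInf_le (bdd y H w) (t, h)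

lemma le_mval (y : I → W) (H : I → Submodule 𝕜 W) (w : W) {c : ℝ}
    (hc : ∀ t h, c ≤ cost y H w t h) : c ≤ mval y H w := le_ciInf fun d => hc d.1 d.2

lemma exists_lt (y : I → W) (H : I → Submodule 𝕜 W) (w : W) {r : ℝ} (hr : mval y H w < r) :
    ∃ t h, cost y H w t h < r := by
  obtain ⟨d, hd⟩ := exists_lt_of_ciInf_lt hr
  exact ⟨d.1, d.2, hd⟩

lemma mval_zero (y : I → W) (H : I → Submodule 𝕜 W) : mval y H (0 : W) = 0 := by
  apply le_antisymm
  · refine (mval_le y H 0 0 0).trans ?_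
    simp [cost]
  · exact le_mval y H 0 fun t h => cost_nonneg _ _ _ _ _

lemma mval_add (y : I → W) (H : I → Submodule 𝕜 W) (v w : W) :
    mval y H (v + w) ≤ mval y H v + mval y H w := by
  apply le_of_forall_pos_lt_add
  intro ε hε
  obtain ⟨t, h, e1⟩ := exists_lt y H v (show mval y H v < mval y H v + ε / 2 by linarith)
  obtain ⟨s, g, e2⟩ := exists_lt y H w (show mval y H w < mval y H w + ε / 2 by linarith)
  have e3 : cost y H (v + w) (t + s) (h + g) ≤ cost y H v t h + cost y H w s g := by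
    unfold cost
    have a1 : ∑ i, max ‖(t + s) i‖ ‖((h + g) i : W)‖ ≤
        ∑ i, max ‖t i‖ ‖(h i : W)‖ + ∑ i, max ‖s i‖ ‖(g i : W)‖ := by
      rw [← Finset.sum_add_distrib]
      refine Finset.sum_le_sum fun i _ => max_le ?_ ?_
      · exact (norm_add_le _ _).trans (add_le_add (le_max_left _ _) (le_max_left _ _))
      · exact (norm_add_le _ _).trans (add_le_add (le_max_right _ _) (le_max_right _ _))
    have a2 : v + w - ∑ i, ((t + s) i • y i + ((h + g) i : W)) =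
        (v - ∑ i, (t i • y i + (h i : W))) + (w - ∑ i, (s i • y i + (g i : W))) := by
      have : ∑ i, ((t + s) i • y i + ((h + g) i : W)) =
          ∑ i, (t i • y i + (h i : W)) + ∑ i, (s i • y i + (g i : W)) := by
        rw [← Finset.sum_add_distrib]
        refine Finset.sum_congr rfl fun i _ => ?_
        simp only [Pi.add_apply, Submodule.coe_add, add_smul]
        abel
      rw [this]
      abel
    have a3 := norm_add_le (v - ∑ i, (t i • y i + (h i : W))) (w - ∑ i, (s i • y i + (g i : W)))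
    rw [← a2] at a3
    linarith
  have := mval_le y H (v + w) (t + s) (h + g)
  linarith

lemma mval_smul (y : I → W) (H : I → Submodule 𝕜 W) (a : 𝕜) (w : W) :
    mval y H (a • w) ≤ ‖a‖ * mval y H w := by
  rcases eq_or_ne a 0 with rfl | ha
  · rw [zero_smul, mval_zero, norm_zero, zero_mul]
  have hpos : 0 < ‖a‖ := norm_pos_iff.mpr ha
  apply le_of_forall_pos_lt_add
  intro ε hε
  obtain ⟨t, h, e1⟩ := exists_lt y H w (show mval y H w < mval y H w + ε / ‖a‖ by
    have : 0 < ε / ‖a‖ := by positivity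
    linarith)
  have e3 : cost y H (a • w) (a • t) (a • h) = ‖a‖ * cost y H w t h := by
    unfold cost
    have a1 : ∀ i, max ‖(a • t) i‖ ‖((a • h) i : W)‖ = ‖a‖ * max ‖t i‖ ‖(h i : W)‖ := by
      intro i
      rw [Pi.smul_apply, Pi.smul_apply, Submodule.coe_smul, norm_smul, norm_smul,
        mul_max_of_nonneg _ _ (norm_nonneg a)]
    have a2 : a • w - ∑ i, ((a • t) i • y i + ((a • h) i : W)) = a • (w - ∑ i, (t i • y i + (h i : W))) := by
      rw [smul_sub, Finset.smul_sum]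
      congr 1
      refine Finset.sum_congr rfl fun i _ => ?_
      rw [Pi.smul_apply, Pi.smul_apply, Submodule.coe_smul, smul_add, smul_assoc]
    rw [a2, norm_smul]
    simp only [a1]
    rw [← Finset.mul_sum]
    ring
  have e4 := mval_le y H (a • w) (a • t) (a • h)
  rw [e3] at e4
  have e5 : ‖a‖ * cost y H w t h < ‖a‖ * (mval y H w + ε / ‖a‖) := mul_lt_mul_of_pos_left e1 hpos
  have e6 : ‖a‖ * (mval y H w + ε / ‖a‖) = ‖a‖ * mval y H w + ε := by
    field_simp
  linarith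

/-- The marked norm as a seminorm. -/
def msemi (y : I → W) (H : I → Submodule 𝕜 W) : Seminorm 𝕜 W :=
  Seminorm.ofSMulLE (mval y H) (mval_zero y H) (mval_add y H) (mval_smul y H)

lemma msemi_apply (y : I → W) (H : I → Submodule 𝕜 W) (w : W) : msemi y H w = mval y H w := rfl

lemma msemi_le (y : I → W) (H : I → Submodule 𝕜 W) (w : W) : msemi y H w ≤ 2 * ‖w‖ := by
  refine (mval_le y H w 0 0).trans ?_
  simp [cost]

lemma norm_le_msemi (y : I → W) (H : I → Submodule 𝕜 W) (hy : ∀ i, ‖y i‖ ≤ 1) (w : W) :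
    ‖w‖ ≤ 2 * msemi y H w := by
  have : ‖w‖ / 2 ≤ msemi y H w := by
    refine le_mval y H w fun t h => ?_
    unfold cost
    have e1 : ‖w‖ ≤ ‖w - ∑ i, (t i • y i + (h i : W))‖ + ‖∑ i, (t i • y i + (h i : W))‖ := by
      simpa using norm_add_le (w - ∑ i, (t i • y i + (h i : W))) (∑ i, (t i • y i + (h i : W)))
    have e2 : ‖∑ i, (t i • y i + (h i : W))‖ ≤ 2 * ∑ i, max ‖t i‖ ‖(h i : W)‖ := by
      refine (norm_sum_le _ _).trans ?_
      rw [Finset.mul_sum]
      refine Finset.sum_le_sum fun i _ => (norm_add_le _ _).trans ?_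
      have a1 : ‖t i • y i‖ ≤ ‖t i‖ := by
        rw [norm_smul]
        exact mul_le_of_le_one_right (norm_nonneg _) (hy i)
      have := le_max_left ‖t i‖ ‖(h i : W)‖
      have := le_max_right ‖t i‖ ‖(h i : W)‖
      linarith
    have e3 := norm_nonneg (w - ∑ i, (t i • y i + (h i : W)))
    linarith
  linarith

/-- A near-contraction which almost fixes the marked points almost preserves the
marked subspaces. -/
theorem near [DecidableEq I] (y : I → W) (H : I → Submodule 𝕜 W) (φ : I → (W →ₗ[𝕜] 𝕜))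
    (hy : ∀ i, ‖y i‖ ≤ 1) (hφ : ∀ i w, ‖φ i w‖ ≤ ‖w‖)
    (hφy : ∀ i j, φ i (y j) = if i = j then 1 else 0)
    (hφH : ∀ i j, ∀ h ∈ H j, φ i h = 0)
    (T : W →ₗ[𝕜] W) (ε : ℝ) (hε : 0 < ε) (hT : ∀ w, msemi y H (T w) ≤ (1 + ε) * msemi y H w)
    (hTy : ∀ i, msemi y H (T (y i) - y i) ≤ ε)
    (i : I) (h : W) (hh : h ∈ H i) (hn : ‖h‖ ≤ 1) :
    ∃ h' ∈ H i, ‖h'‖ ≤ 1 + 3 * ε ∧ ‖T h - h'‖ ≤ 6 * ε := by
  -- a unimodular scalar
  obtain ⟨ω, hω, hωφ⟩ : ∃ ω : 𝕜, ‖ω‖ = 1 ∧ ω * φ i (T h) = (‖φ i (T h)‖ : 𝕜) := by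
    by_cases h0 : φ i (T h) = 0
    · exact ⟨1, norm_one, by rw [h0]; simp⟩
    · have hne : ‖φ i (T h)‖ ≠ 0 := norm_ne_zero_iff.mpr h0
      have hne' : (‖φ i (T h)‖ : 𝕜) ≠ 0 := by exact_mod_cast hne
      refine ⟨(‖φ i (T h)‖ : 𝕜) / φ i (T h), ?_, ?_⟩
      · rw [norm_div, RCLike.norm_ofReal, abs_norm, div_self hne]
      · rw [div_mul_cancel₀ _ h0]
  have hω0 : ω ≠ 0 := by
    intro h0
    rw [h0, norm_zero] at hω
    exact zero_ne_one hω
  -- the marked norm of `y i + ω • h` is at most one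
  have e1 : msemi y H (y i + ω • h) ≤ 1 := by
    refine (mval_le y H _ (Pi.single i 1) (Pi.single i ⟨ω • h, (H i).smul_mem ω hh⟩)).trans ?_
    unfold cost
    have a1 : ∀ j, ((Pi.single i (1 : 𝕜) : I → 𝕜) j • y j +
        ((Pi.single i ⟨ω • h, (H i).smul_mem ω hh⟩ : (j : I) → H j) j : W)) =
        if j = i then y i + ω • h else 0 := by
      intro j
      rcases eq_or_ne j i with rfl | hj
      · simp
      · simp [hj]
    have a2 : ∀ j, max ‖(Pi.single i (1 : 𝕜) : I → 𝕜) j‖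
        ‖((Pi.single i ⟨ω • h, (H i).smul_mem ω hh⟩ : (j : I) → H j) j : W)‖ =
        if j = i then max 1 ‖ω • h‖ else 0 := by
      intro j
      rcases eq_or_ne j i with rfl | hj
      · simp
      · simp [hj]
    simp only [a1, a2, Finset.sum_ite_eq', Finset.mem_univ, if_true, sub_self, norm_zero, mul_zero, add_zero]
    rw [norm_smul, hω, one_mul]
    exact max_le le_rfl hn
  have e2 : msemi y H (y i + ω • T h) < 1 + 3 * ε := by
    have b1 : y i + ω • T h = T (y i + ω • h) - (T (y i) - y i) := by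
      rw [map_add, map_smul]
      abel
    have b2 : msemi y H (y i + ω • T h) ≤ msemi y H (T (y i + ω • h)) + msemi y H (T (y i) - y i) := by
      rw [b1]
      exact map_sub_le_add _ _ _
    have b3 := hT (y i + ω • h)
    have b4 := hTy i
    have b5 : (1 + ε) * msemi y H (y i + ω • h) ≤ (1 + ε) * 1 := mul_le_mul_of_nonneg_left e1 (by linarith)
    linarith
  obtain ⟨t, g, hc⟩ := exists_lt y H _ e2
  set r : W := y i + ω • T h - ∑ j, (t j • y j + (g j : W)) with hr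
  have hc' : ∑ j, max ‖t j‖ ‖(g j : W)‖ + 2 * ‖r‖ < 1 + 3 * ε := hc
  rw [← Finset.add_sum_erase _ _ (Finset.mem_univ i)] at hc'
  set S : ℝ := ∑ j ∈ Finset.univ.erase i, max ‖t j‖ ‖(g j : W)‖ with hS
  have hS0 : 0 ≤ S := Finset.sum_nonneg fun j _ => le_max_of_le_left (norm_nonneg _)
  -- the coefficient
  have e3 : t i = 1 + (‖φ i (T h)‖ : 𝕜) - φ i r := by
    have c1 : φ i (∑ j, (t j • y j + (g j : W))) = t i := by
      rw [map_sum]
      have : ∀ j, φ i (t j • y j + (g j : W)) = if i = j then t i else 0 := by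
        intro j
        rw [map_add, map_smul, hφy, hφH i j _ (g j).2, add_zero]
        rcases eq_or_ne i j with rfl | hj
        · simp
        · simp [hj]
      simp [this]
    have c2 : φ i r = 1 + ω * φ i (T h) - t i := by
      rw [hr, map_sub, c1, map_add, map_smul, hφy]
      simp
    rw [c2, hωφ]
    ring
  set p : ℝ := ‖φ i (T h)‖ with hp
  have hp0 : 0 ≤ p := norm_nonneg _
  have e4 : ‖t i - 1‖ ≤ p + ‖r‖ := by
    have : t i - 1 = (p : 𝕜) - φ i r := by rw [e3]; ring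
    rw [this]
    refine (norm_sub_le _ _).trans ?_
    rw [RCLike.norm_ofReal, abs_of_nonneg hp0]
    have := hφ i r
    linarith
  have e5 : 1 + p ≤ ‖t i‖ + ‖r‖ := by
    have c1 : ((1 + p : ℝ) : 𝕜) = t i + φ i r := by
      rw [e3]
      push_cast
      ring
    have c2 : ‖((1 + p : ℝ) : 𝕜)‖ = 1 + p := by
      rw [RCLike.norm_ofReal, abs_of_nonneg (by linarith)]
    rw [← c2, c1]
    refine (norm_add_le _ _).trans ?_
    have := hφ i r
    linarith
  have e6 : p + ‖r‖ + S ≤ 3 * ε := by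
    have := le_max_left ‖t i‖ ‖(g i : W)‖
    linarith
  have e7 : ‖ω • T h - (g i : W)‖ ≤ 6 * ε := by
    have c1 : ω • T h - (g i : W) = (t i - 1) • y i + (∑ j ∈ Finset.univ.erase i, (t j • y j + (g j : W)) + r) := by
      have c2 := Finset.add_sum_erase Finset.univ (fun j => t j • y j + (g j : W)) (Finset.mem_univ i)
      have c3 : ∑ j ∈ Finset.univ.erase i, (t j • y j + (g j : W)) =
          ∑ j, (t j • y j + (g j : W)) - (t i • y i + (g i : W)) := by
        rw [← c2]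
        abel
      rw [c3, hr, sub_smul, one_smul]
      abel
    have c4 : ‖∑ j ∈ Finset.univ.erase i, (t j • y j + (g j : W))‖ ≤ 2 * S := by
      refine (norm_sum_le _ _).trans ?_
      rw [hS, Finset.mul_sum]
      refine Finset.sum_le_sum fun j _ => (norm_add_le _ _).trans ?_
      have a1 : ‖t j • y j‖ ≤ ‖t j‖ := by
        rw [norm_smul]
        exact mul_le_of_le_one_right (norm_nonneg _) (hy j)
      have := le_max_left ‖t j‖ ‖(g j : W)‖
      have := le_max_right ‖t j‖ ‖(g j : W)‖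
      linarith
    have c5 : ‖(t i - 1) • y i‖ ≤ ‖t i - 1‖ := by
      rw [norm_smul]
      exact mul_le_of_le_one_right (norm_nonneg _) (hy i)
    rw [c1]
    refine (norm_add_le _ _).trans ?_
    have c6 := norm_add_le (∑ j ∈ Finset.univ.erase i, (t j • y j + (g j : W))) r
    linarith
  refine ⟨ω⁻¹ • (g i : W), (H i).smul_mem _ (g i).2, ?_, ?_⟩
  · rw [norm_smul, norm_inv, hω, inv_one, one_mul]
    have := le_max_right ‖t i‖ ‖(g i : W)‖
    have := norm_nonneg r
    linarith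
  · have c1 : T h - ω⁻¹ • (g i : W) = ω⁻¹ • (ω • T h - (g i : W)) := by
      rw [smul_sub, smul_smul, inv_mul_cancel₀ hω0, one_smul]
    rw [c1, norm_smul, norm_inv, hω, inv_one, one_mul]
    exact e7


end MarkPart

section CommonPart

variable {𝕜 : Type*} [RCLike 𝕜]

/-- A finite rank operator maps the unit ball onto a totally bounded set. -/
lemma tot {W : Type*} [NormedAddCommGroup W] [NormedSpace 𝕜 W] (T : W →L[𝕜] W)
    (hT : FiniteDimensional 𝕜 (LinearMap.range (T : W →ₗ[𝕜] W))) {δ : ℝ} (hδ : 0 < δ) :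
    ∃ F : Set W, F.Finite ∧ ∀ w, ‖w‖ ≤ 1 → ∃ c ∈ F, ‖T w - c‖ < δ := by
  set R := LinearMap.range (T : W →ₗ[𝕜] W) with hR
  have : ProperSpace R := FiniteDimensional.proper 𝕜 R
  have h1 : IsCompact (Metric.closedBall (0 : R) ‖T‖) := isCompact_closedBall _ _
  have h2 : IsCompact ((fun x : R => (x : W)) '' Metric.closedBall (0 : R) ‖T‖) :=
    h1.image continuous_subtype_val
  obtain ⟨F, hF, hF2⟩ := Metric.totallyBounded_iff.mp h2.totallyBounded δ hδ
  refine ⟨F, hF, fun w hw => ?_⟩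
  have h3 : T w ∈ (fun x : R => (x : W)) '' Metric.closedBall (0 : R) ‖T‖ := by
    refine ⟨⟨T w, ⟨w, rfl⟩⟩, ?_, rfl⟩
    rw [mem_closedBall_zero_iff]
    change ‖T w‖ ≤ ‖T‖
    exact T.unit_le_opNorm w hw
  have h4 := hF2 h3
  simp only [Set.mem_iUnion, Metric.mem_ball, dist_eq_norm] at h4
  obtain ⟨c, hc, hc2⟩ := h4
  exact ⟨c, hc, hc2⟩

/-- The marks. -/
abbrev MI : Type := Fin 3 ⊕ (Fin 3 ⊕ (Fin 4 × Fin 4))

/-- The index set of the space: the marks and two copies of `Om`. -/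
abbrev Ix : Type := MI ⊕ (Om ⊕ Om)

/-- The three relations. -/
def Bs : Fin 3 → Equiv.Perm Om := ![1, B1, B2]

/-- the colour classes -/
def colr (c : Fin 4 × Fin 4) : Set Om := {x | ⌊4 * rx x⌋ = (c.1 : ℤ) ∧ ⌊4 * ry x⌋ = (c.2 : ℤ)}

lemma rx_nonneg (z : Om) : 0 ≤ rx z := by unfold rx; positivity
lemma ry_nonneg (z : Om) : 0 ≤ ry z := by unfold ry; positivity

lemma rx_lt (z : Om) : rx z < 1 := by
  unfold rx
  rw [div_lt_one (by positivity)]
  have := ZMod.val_lt z.2.1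
  exact_mod_cast this

lemma ry_lt (z : Om) : ry z < 1 := by
  unfold ry
  rw [div_lt_one (by positivity)]
  have := ZMod.val_lt z.2.2
  exact_mod_cast this

lemma floor_fin {q : ℚ} (h0 : 0 ≤ q) (h1 : q < 1) : ∃ c : Fin 4, ⌊4 * q⌋ = (c : ℤ) := by
  have a1 : 0 ≤ ⌊4 * q⌋ := Int.floor_nonneg.mpr (by linarith)
  have a2 : ⌊4 * q⌋ < 4 := Int.floor_lt.mpr (by push_cast; linarith)
  obtain ⟨k, hk⟩ := Int.eq_ofNat_of_zero_le a1
  rw [hk] at a2 ⊢
  have a3 : k < 4 := by exact_mod_cast a2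
  exact ⟨⟨k, a3⟩, rfl⟩

lemma exists_colr (z : Om) : ∃ c, z ∈ colr c := by
  obtain ⟨c1, h1⟩ := floor_fin (rx_nonneg z) (rx_lt z)
  obtain ⟨c2, h2⟩ := floor_fin (ry_nonneg z) (ry_lt z)
  exact ⟨(c1, c2), h1, h2⟩

lemma good_of_colr {z y : Om} {c} (hz : z ∈ colr c) (hy : y ∈ colr c) : good z y := by
  have a1 : ⌊4 * rx z⌋ = ⌊4 * rx y⌋ := hz.1.trans hy.1.symm
  have a2 : ⌊4 * ry z⌋ = ⌊4 * ry y⌋ := hz.2.trans hy.2.symm
  have b1 := Int.abs_sub_lt_one_of_floor_eq_floor a1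
  have b2 := Int.abs_sub_lt_one_of_floor_eq_floor a2
  rw [abs_lt] at b1 b2
  unfold good w1 w2
  rw [abs_lt, abs_lt]
  refine ⟨⟨?_, ?_⟩, ?_, ?_⟩ <;> linarith [b1.1, b1.2, b2.1, b2.2]

/-- a single coordinate -/
lemma prime_le {p q a b : ℕ} (hp : p.Prime) (ha : a < p) (ha0 : a ≠ 0) (hq : 0 < q)
    (h : (a : ℚ) / p = (b : ℚ) / q) : p ≤ q := by
  have hp0 : (p : ℚ) ≠ 0 := by exact_mod_cast hp.ne_zero
  have hq0 : (q : ℚ) ≠ 0 := by exact_mod_cast hq.ne'
  rw [div_eq_div_iff hp0 hq0] at h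
  have h' : a * q = b * p := by exact_mod_cast h
  have h2 : p ∣ a * q := ⟨b, by rw [h', mul_comm]⟩
  rcases hp.dvd_mul.mp h2 with h3 | h3
  · exact absurd (Nat.le_of_dvd (Nat.pos_of_ne_zero ha0) h3) (not_le.mpr ha)
  · exact Nat.le_of_dvd hq h3

/-- the fibre above a prime -/
def fib (n : ℕ) : Finset Om :=
  (Finset.univ.filter fun p : ZMod (n + 1) × ZMod (n + 1) => p ≠ 0).map
    ⟨fun p => ⟨n, p⟩, fun p q h => by simpa using h⟩

lemma mem_fib {n : ℕ} {z : Om} : z ∈ fib n ↔ z.1 = n ∧ z.2 ≠ 0 := by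
  obtain ⟨m, p⟩ := z
  simp only [fib, Finset.mem_map, Finset.mem_filter, Finset.mem_univ, true_and, Function.Embedding.coeFn_mk]
  constructor
  · rintro ⟨q, hq, h⟩
    simp only [Sigma.mk.injEq] at h
    obtain ⟨rfl, h⟩ := h
    rw [heq_eq_eq] at h
    subst h
    exact ⟨rfl, hq⟩
  · rintro ⟨h1, h2⟩
    subst h1
    exact ⟨p, h2, rfl⟩

lemma fib_B1 (n : ℕ) (z : Om) : z ∈ fib n ↔ B1 z ∈ fib n := by
  rw [mem_fib, mem_fib]
  obtain ⟨m, a, b⟩ := z
  change m = n ∧ (a, b) ≠ 0 ↔ m = n ∧ (a + b, b) ≠ 0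
  simp only [ne_eq, Prod.mk_eq_zero]
  constructor
  · rintro ⟨h1, h2⟩
    exact ⟨h1, fun h => h2 ⟨by simpa [h.2] using h.1, h.2⟩⟩
  · rintro ⟨h1, h2⟩
    exact ⟨h1, fun h => h2 ⟨by simp [h.1, h.2], h.2⟩⟩

lemma fib_B2 (n : ℕ) (z : Om) : z ∈ fib n ↔ B2 z ∈ fib n := by
  rw [mem_fib, mem_fib]
  obtain ⟨m, a, b⟩ := z
  change m = n ∧ (a, b) ≠ 0 ↔ m = n ∧ (a, b + a) ≠ 0
  simp only [ne_eq, Prod.mk_eq_zero]
  constructor
  · rintro ⟨h1, h2⟩
    exact ⟨h1, fun h => h2 ⟨h.1, by simpa [h.1] using h.2⟩⟩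
  · rintro ⟨h1, h2⟩
    exact ⟨h1, fun h => h2 ⟨h.1, by simp [h.1, h.2]⟩⟩

lemma fib_nonempty {n : ℕ} (hn : (n + 1).Prime) : (fib n).Nonempty := by
  have : Fact (1 < n + 1) := ⟨hn.one_lt⟩
  refine ⟨⟨n, (1, 0)⟩, mem_fib.mpr ⟨rfl, ?_⟩⟩
  simp

lemma fib_le {n : ℕ} (hn : (n + 1).Prime) {z y : Om} (hz : z ∈ fib n)
    (h1 : w1 z y = 0) (h2 : w2 z y = 0) : n ≤ y.1 := by
  obtain ⟨hz1, hz2⟩ := mem_fib.mp hz
  subst hz1
  have h1' : (z.2.1.val : ℚ) / ((z.1 + 1 : ℕ) : ℚ) = (y.2.1.val : ℚ) / ((y.1 + 1 : ℕ) : ℚ) := by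
    have := sub_eq_zero.mp h1
    unfold rx at this
    push_cast
    exact this
  have h2' : (z.2.2.val : ℚ) / ((z.1 + 1 : ℕ) : ℚ) = (y.2.2.val : ℚ) / ((y.1 + 1 : ℕ) : ℚ) := by
    have := sub_eq_zero.mp h2
    unfold ry at this
    push_cast
    exact this
  by_cases h0 : z.2.1 = 0
  · have h0' : z.2.2 ≠ 0 := by
      intro h
      exact hz2 (Prod.ext h0 h)
    have : z.2.2.val ≠ 0 := by rwa [ne_eq, ZMod.val_eq_zero]
    have := prime_le hn (ZMod.val_lt z.2.2) this (Nat.succ_pos _) h2'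
    omega
  · have : z.2.1.val ≠ 0 := by rwa [ne_eq, ZMod.val_eq_zero]
    have := prime_le hn (ZMod.val_lt z.2.1) this (Nat.succ_pos _) h1'
    omega

/-- the points over the same location -/
def Dz (z : Om) : Set Om := {y | w1 z y = 0 ∧ w2 z y = 0}

lemma Dz_disjoint {n m : ℕ} (hn : (n + 1).Prime) (hm : (m + 1).Prime) {z z' : Om} (hz : z ∈ fib n)
    (hz' : z' ∈ fib m) (hne : n ≠ m) : Disjoint (Dz z) (Dz z') := by
  rw [Set.disjoint_left]
  rintro y ⟨a1, a2⟩ ⟨b1, b2⟩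
  unfold w1 at a1 b1
  unfold w2 at a2 b2
  have c1 : w1 z z' = 0 := by unfold w1; linarith
  have c2 : w2 z z' = 0 := by unfold w2; linarith
  have c3 : w1 z' z = 0 := by unfold w1; linarith
  have c4 : w2 z' z = 0 := by unfold w2; linarith
  have d1 := fib_le hn hz c1 c2
  have d2 := fib_le hm hz' c3 c4
  rw [(mem_fib.mp hz).1] at d2
  rw [(mem_fib.mp hz').1] at d1
  omega

instance : Infinite Ix := by
  have : Infinite Om := Infinite.of_injective (fun n : ℕ => (⟨n, 0⟩ : Om)) (by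
    intro a b h
    simp only [Sigma.mk.injEq] at h
    exact h.1)
  infer_instance

instance : Countable Ix := by
  have : ∀ n : ℕ, Countable (ZMod (n + 1)) := fun n => Finite.to_countable
  infer_instance

/-- Vectors supported on `D`. -/
def suppS {p : ℝ≥0∞} (D : Set ℕ) : Submodule 𝕜 (lp (fun _ : ℕ => 𝕜) p) where
  carrier := {f | ∀ n, n ∉ D → f n = 0}
  add_mem' {f g} hf hg n hn := by
    rw [lp.coeFn_add, Pi.add_apply, hf n hn, hg n hn, add_zero]
  zero_mem' n _ := by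
    rw [lp.coeFn_zero]; rfl
  smul_mem' c f hf n hn := by
    rw [lp.coeFn_smul, Pi.smul_apply, hf n hn, smul_zero]

/-- Vectors satisfying the relation given by `b`. -/
def relS {p : ℝ≥0∞} (e : Ix ≃ ℕ) (b : Equiv.Perm Om) : Submodule 𝕜 (lp (fun _ : ℕ => 𝕜) p) where
  carrier := {f | (∀ i : MI, f (e (Sum.inl i)) = 0) ∧
    ∀ x : Om, f (e (Sum.inr (Sum.inl x))) + f (e (Sum.inr (Sum.inr (b x)))) = 0}
  add_mem' {f g} hf hg := by
    refine ⟨fun i => ?_, fun x => ?_⟩
    · rw [lp.coeFn_add, Pi.add_apply, hf.1 i, hg.1 i, add_zero]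
    · rw [lp.coeFn_add, Pi.add_apply, Pi.add_apply, add_add_add_comm, hf.2 x, hg.2 x, add_zero]
  zero_mem' := by
    refine ⟨fun i => ?_, fun x => ?_⟩
    · rw [lp.coeFn_zero]; rfl
    · rw [lp.coeFn_zero]; simp
  smul_mem' c f hf := by
    refine ⟨fun i => ?_, fun x => ?_⟩
    · rw [lp.coeFn_smul, Pi.smul_apply, hf.1 i, smul_zero]
    · rw [lp.coeFn_smul, Pi.smul_apply, Pi.smul_apply, ← smul_add, hf.2 x, smul_zero]

/-- first copy -/
def c1 (e : Ix ≃ ℕ) (x : Om) : ℕ := e (Sum.inr (Sum.inl x))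
/-- second copy -/
def c2 (e : Ix ≃ ℕ) (x : Om) : ℕ := e (Sum.inr (Sum.inr x))

lemma c1_inj (e : Ix ≃ ℕ) : Function.Injective (c1 e) := fun a b h => by
  have := e.injective h
  simpa using this

lemma c2_inj (e : Ix ≃ ℕ) : Function.Injective (c2 e) := fun a b h => by
  have := e.injective h
  simpa using this

lemma c1_ne_c2 (e : Ix ≃ ℕ) (x y : Om) : c1 e x ≠ c2 e y := fun h => by
  have := e.injective h
  simp at this

lemma c2_ne_c1 (e : Ix ≃ ℕ) (x y : Om) : c2 e x ≠ c1 e y := fun h => by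
  have := e.injective h
  simp at this

lemma inl_ne_c1 (e : Ix ≃ ℕ) (i : MI) (y : Om) : e (Sum.inl i) ≠ c1 e y := fun h => by
  have := e.injective h
  simp at this

lemma inl_ne_c2 (e : Ix ≃ ℕ) (i : MI) (y : Om) : e (Sum.inl i) ≠ c2 e y := fun h => by
  have := e.injective h
  simp at this

lemma c12_disj (e : Ix ≃ ℕ) (A B : Set Om) : Disjoint (c1 e '' A) (c2 e '' B) := by
  rw [Set.disjoint_left]
  rintro _ ⟨x, _, rfl⟩ ⟨y, _, h⟩
  exact c1_ne_c2 e x y h.symm

/-- marked points -/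
def yy {p : ℝ≥0∞} (e : Ix ≃ ℕ) (i : MI) : lp (fun _ : ℕ => 𝕜) p := lp.single p (e (Sum.inl i)) 1

/-- the coordinate functionals of the marked points -/
def ph {p : ℝ≥0∞} (e : Ix ≃ ℕ) (i : MI) : lp (fun _ : ℕ => 𝕜) p →ₗ[𝕜] 𝕜 where
  toFun f := f (e (Sum.inl i))
  map_add' f g := by rw [lp.coeFn_add, Pi.add_apply]
  map_smul' c f := by rw [lp.coeFn_smul, Pi.smul_apply]; rfl

lemma ph_yy {p : ℝ≥0∞} (e : Ix ≃ ℕ) (i j : MI) :
    ph (𝕜 := 𝕜) (p := p) e i (yy e j) = if i = j then 1 else 0 := by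
  change (yy (𝕜 := 𝕜) (p := p) e j) (e (Sum.inl i)) = _
  unfold yy
  split_ifs with h
  · subst h
    rw [lp.single_apply_self]
  · rw [lp.single_apply_ne]
    intro h'
    apply h
    have := e.injective h'
    simpa using this


end CommonPart

end Pool.Agent.Helper81.MapRenorm
end
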