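import Mathlib
import Pool.Agent.Helper81.MapRenorm.Base

/-!
# `ℓ_∞` has an equivalent norm without the metric approximation property
-/

open Pool.Agent.Helper81.MapRenorm
open scoped ENNReal

noncomputable section

namespace Pool.Agent.Helper81.MapRenorm.EllInfty

variable {𝕜 : Type*} [RCLike 𝕜]

/-- `ℓ_∞` -/
abbrev LI (𝕜 : Type*) [RCLike 𝕜] : Type _ := lp (fun _ : ℕ => 𝕜) ∞

/-- the indicator of a set -/
def ind (A : Set ℕ) : LI 𝕜 := ⟨A.indicator (fun _ => (1 : 𝕜)), memℓp_infty ⟨1, by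
  rintro _ ⟨n, rfl⟩
  refine (norm_indicator_le_norm_self _ _).trans ?_
  rw [norm_one]⟩⟩

lemma ind_mem {A : Set ℕ} {n : ℕ} (h : n ∈ A) : (ind A : LI 𝕜) n = 1 := by
  change A.indicator (fun _ => (1 : 𝕜)) n = 1
  exact Set.indicator_of_mem h _

lemma ind_notMem {A : Set ℕ} {n : ℕ} (h : n ∉ A) : (ind A : LI 𝕜) n = 0 := by
  change A.indicator (fun _ => (1 : 𝕜)) n = 0
  exact Set.indicator_of_notMem h _

lemma ind_union {A B : Set ℕ} (hAB : Disjoint A B) : (ind (A ∪ B) : LI 𝕜) = ind A + ind B := by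
  ext n
  rw [lp.coeFn_add, Pi.add_apply]
  by_cases h : n ∈ A
  · have h' : n ∉ B := fun h' => Set.disjoint_left.mp hAB h h'
    rw [ind_mem (Set.mem_union_left _ h), ind_mem h, ind_notMem h', add_zero]
  · by_cases h' : n ∈ B
    · rw [ind_mem (Set.mem_union_right _ h'), ind_mem h', ind_notMem h, zero_add]
    · rw [ind_notMem h, ind_notMem h', ind_notMem (by simp [h, h']), add_zero]

lemma ind_norm (A : Set ℕ) : ‖(ind A : LI 𝕜)‖ ≤ 1 := by
  refine lp.norm_le_of_forall_le zero_le_one fun n => ?_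
  by_cases h : n ∈ A
  · rw [ind_mem h, norm_one]
  · rw [ind_notMem h, norm_zero]; exact zero_le_one

lemma ind_sub_norm {A B : Set ℕ} (hAB : Disjoint A B) : ‖(ind A - ind B : LI 𝕜)‖ ≤ 1 := by
  refine lp.norm_le_of_forall_le zero_le_one fun n => ?_
  rw [lp.coeFn_sub, Pi.sub_apply]
  by_cases h : n ∈ A
  · have h' : n ∉ B := fun h' => Set.disjoint_left.mp hAB h h'
    rw [ind_mem h, ind_notMem h', sub_zero, norm_one]
  · by_cases h' : n ∈ B
    · rw [ind_mem h', ind_notMem h, zero_sub, norm_neg, norm_one]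
    · rw [ind_notMem h, ind_notMem h', sub_zero, norm_zero]; exact zero_le_one

/-- the marked subspaces of `ℓ_∞` -/
def HI (𝕜 : Type*) [RCLike 𝕜] (e : Ix ≃ ℕ) : MI → Submodule 𝕜 (LI 𝕜)
  | Sum.inl 0 => suppS (Set.range (c1 e))
  | Sum.inl 1 => suppS (Set.range (c2 e))
  | Sum.inl 2 => ⊥
  | Sum.inr (Sum.inl b) => relS e (Bs b)
  | Sum.inr (Sum.inr c) => suppS (c1 e '' (colr c)ᶜ)

lemma HI_zero (e : Ix ≃ ℕ) (i j : MI) {h : LI 𝕜} (hh : h ∈ HI 𝕜 e j) : h (e (Sum.inl i)) = 0 := by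
  rcases j with j | j | j
  · fin_cases j
    · exact hh _ (by rintro ⟨x, hx⟩; exact inl_ne_c1 e i x hx.symm)
    · exact hh _ (by rintro ⟨x, hx⟩; exact inl_ne_c2 e i x hx.symm)
    · have : h = 0 := hh
      rw [this, lp.coeFn_zero]; rfl
  · exact hh.1 i
  · exact hh _ (by rintro ⟨x, _, hx⟩; exact inl_ne_c1 e i x hx.symm)

/-- Indicators of many disjoint sets cannot all have large images. -/
lemma small_image (T : LI 𝕜 →L[𝕜] LI 𝕜)
    (hT : FiniteDimensional 𝕜 (LinearMap.range (T : LI 𝕜 →ₗ[𝕜] LI 𝕜))) {δ : ℝ} (hδ : 0 < δ)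
    {ι : Type*} [Infinite ι] (D : ι → Set ℕ) (hD : Pairwise fun i j => Disjoint (D i) (D j)) :
    ∃ i, ‖T (ind (D i))‖ ≤ δ := by
  classical
  by_contra hcon
  push Not at hcon
  obtain ⟨F, hF, hF2⟩ := tot T hT (show 0 < δ / 4 by positivity)
  choose f hf hf2 using fun i => hF2 (ind (D i)) (ind_norm _)
  have : Finite F := hF
  obtain ⟨⟨c, hc⟩, hinf⟩ := Finite.exists_infinite_fiber (fun i => (⟨f i, hf i⟩ : F))
  obtain ⟨k, hk⟩ := exists_nat_gt (2 * ‖T‖ / δ)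
  have hinf' : Set.Infinite ((fun i => (⟨f i, hf i⟩ : F)) ⁻¹' {⟨c, hc⟩}) := Set.infinite_coe_iff.mp hinf
  obtain ⟨Q, hQ1, hQ2⟩ := hinf'.exists_subset_card_eq k
  have hQc : ∀ i ∈ Q, f i = c := fun i hi => by
    have := hQ1 hi
    simpa using this
  -- the sum of the indicators
  have hsum : ∀ R : Finset ι, (∑ i ∈ R, (ind (D i) : LI 𝕜)) = ind (⋃ i ∈ R, D i) := by
    intro R
    induction R using Finset.induction_on with
    | empty =>
      ext n
      rw [Finset.sum_empty, ind_notMem (by simp), lp.coeFn_zero]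
      rfl
    | insert a s ha ih =>
      rw [Finset.sum_insert ha, ih, ← ind_union]
      · congr 1
        ext n
        simp
      · rw [Set.disjoint_iUnion₂_right]
        intro j hj
        exact hD (fun h => ha (h ▸ hj))
  have h1 : ‖T (∑ i ∈ Q, (ind (D i) : LI 𝕜))‖ ≤ ‖T‖ := by
    rw [hsum]
    exact T.unit_le_opNorm _ (ind_norm _)
  rw [map_sum] at h1
  have h2 : (k : ℝ) * ‖c‖ ≤ ‖T‖ + k * (δ / 4) := by
    have e1 : (k : 𝕜) • c = ∑ i ∈ Q, T (ind (D i)) - ∑ i ∈ Q, (T (ind (D i)) - c) := by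
      rw [Finset.sum_sub_distrib, Finset.sum_const, hQ2, sub_sub_cancel, Nat.cast_smul_eq_nsmul]
    have e2 : ‖∑ i ∈ Q, (T (ind (D i)) - c)‖ ≤ k * (δ / 4) := by
      refine (norm_sum_le _ _).trans ?_
      refine (Finset.sum_le_card_nsmul _ _ (δ / 4) fun i hi => ?_).trans ?_
      · have := hf2 i
        rw [hQc i hi] at this
        exact this.le
      · rw [hQ2, nsmul_eq_mul]
    have e3 : ‖(k : 𝕜) • c‖ = k * ‖c‖ := by rw [norm_smul, RCLike.norm_natCast]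
    rw [← e3, e1]
    exact (norm_sub_le _ _).trans (add_le_add h1 e2)
  -- the norm of the centre
  have hk0 : (0 : ℝ) < k := lt_of_le_of_lt (by positivity) hk
  have hkpos : 0 < k := by exact_mod_cast hk0
  obtain ⟨i, hi⟩ : Q.Nonempty := Finset.card_pos.mp (hQ2 ▸ hkpos)
  have h3 : 3 * δ / 4 ≤ ‖c‖ := by
    have e1 := hf2 i
    rw [hQc i hi] at e1
    have e2 := hcon i
    have e3 : ‖T (ind (D i))‖ ≤ ‖T (ind (D i)) - c‖ + ‖c‖ := by
      simpa using norm_add_le (T (ind (D i)) - c) c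
    linarith
  have h4 : (k : ℝ) * (3 * δ / 4) ≤ k * ‖c‖ := mul_le_mul_of_nonneg_left h3 hk0.le
  rw [div_lt_iff₀ hδ] at hk
  nlinarith

/-- The core of the argument in `ℓ_∞`. -/
theorem core_inf (e : Ix ≃ ℕ) (T : LI 𝕜 →L[𝕜] LI 𝕜)
    (hfin : FiniteDimensional 𝕜 (LinearMap.range (T : LI 𝕜 →ₗ[𝕜] LI 𝕜))) {ε : ℝ} (hε : 0 < ε)
    (hε2 : ε < 1 / 2000)
    (hnear : ∀ i, ∀ h ∈ HI 𝕜 e i, ‖h‖ ≤ 1 → ∃ h' ∈ HI 𝕜 e i, ‖h'‖ ≤ 1 + 3 * ε ∧ ‖T h - h'‖ ≤ 6 * ε)
    (ho : ‖T (ind (c1 e '' Set.univ)) - ind (c1 e '' Set.univ)‖ ≤ 2 * ε) : False := by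
  classical
  have ev : ∀ (f : LI 𝕜) n, ‖f n‖ ≤ ‖f‖ := fun f n => lp.norm_apply_le_norm (by simp) f n
  have c1mem : ∀ {x : Om} {A : Set Om}, c1 e x ∈ c1 e '' A ↔ x ∈ A := fun {x A} =>
    (c1_inj e).mem_set_image
  have c2mem : ∀ {x : Om} {A : Set Om}, c2 e x ∈ c2 e '' A ↔ x ∈ A := fun {x A} =>
    (c2_inj e).mem_set_image
  have c12 : ∀ (x : Om) (A : Set Om), c1 e x ∉ c2 e '' A := by
    rintro x A ⟨y, _, hy⟩
    exact c1_ne_c2 e x y hy.symm
  have c21 : ∀ (x : Om) (A : Set Om), c2 e x ∉ c1 e '' A := by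
    rintro x A ⟨y, _, hy⟩
    exact c1_ne_c2 e y x hy
  -- images of vectors supported on the first copy
  have hT12 : ∀ (A : Set Om) z, ‖(T (ind (c1 e '' A))) (c2 e z)‖ ≤ 6 * ε := by
    intro A z
    obtain ⟨h', hh', h1, h2⟩ := hnear (Sum.inl 0) (ind (c1 e '' A)) (by
      intro n hn
      exact ind_notMem fun ⟨y, _, hy⟩ => hn ⟨y, hy⟩) (ind_norm _)
    have h3 : h' (c2 e z) = 0 := hh' _ (by rintro ⟨y, hy⟩; exact c1_ne_c2 e y z hy)
    have h4 := ev (T (ind (c1 e '' A)) - h') (c2 e z)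
    rw [lp.coeFn_sub, Pi.sub_apply, h3, sub_zero] at h4
    exact h4.trans h2
  have hT21 : ∀ (A : Set Om) z, ‖(T (ind (c2 e '' A))) (c1 e z)‖ ≤ 6 * ε := by
    intro A z
    obtain ⟨h', hh', h1, h2⟩ := hnear (Sum.inl 1) (ind (c2 e '' A)) (by
      intro n hn
      exact ind_notMem fun ⟨y, _, hy⟩ => hn ⟨y, hy⟩) (ind_norm _)
    have h3 : h' (c1 e z) = 0 := hh' _ (by rintro ⟨y, hy⟩; exact c1_ne_c2 e z y hy.symm)
    have h4 := ev (T (ind (c2 e '' A)) - h') (c1 e z)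
    rw [lp.coeFn_sub, Pi.sub_apply, h3, sub_zero] at h4
    exact h4.trans h2
  -- relations
  have hrel : ∀ (b : Fin 3) z (A : Set Om),
      ‖(T (ind (c1 e '' A))) (c1 e z) - (T (ind (c2 e '' (Bs b '' A)))) (c2 e (Bs b z))‖ ≤ 24 * ε := by
    intro b z A
    set h : LI 𝕜 := ind (c1 e '' A) - ind (c2 e '' (Bs b '' A)) with hh
    have hmem : h ∈ relS (𝕜 := 𝕜) (p := ∞) e (Bs b) := by
      refine ⟨fun i => ?_, fun x => ?_⟩
      · rw [hh, lp.coeFn_sub, Pi.sub_apply, ind_notMem, ind_notMem, sub_zero]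
        · rintro ⟨y, _, hy⟩
          exact inl_ne_c2 e i y hy.symm
        · rintro ⟨y, _, hy⟩
          exact inl_ne_c1 e i y hy.symm
      · rw [hh, lp.coeFn_sub, Pi.sub_apply, Pi.sub_apply]
        change (ind (c1 e '' A) : LI 𝕜) (c1 e x) - (ind (c2 e '' (Bs b '' A)) : LI 𝕜) (c1 e x) +
          ((ind (c1 e '' A) : LI 𝕜) (c2 e (Bs b x)) - (ind (c2 e '' (Bs b '' A)) : LI 𝕜) (c2 e (Bs b x))) = 0
        rw [ind_notMem (c12 x _), ind_notMem (c21 (Bs b x) _)]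
        by_cases hx : x ∈ A
        · rw [ind_mem (c1mem.mpr hx), ind_mem (c2mem.mpr (Set.mem_image_of_mem _ hx))]
          ring
        · rw [ind_notMem (fun h => hx (c1mem.mp h)), ind_notMem]
          · ring
          · intro h
            apply hx
            have := c2mem.mp h
            exact (Bs b).injective.mem_set_image.mp this
    obtain ⟨h', hh', h1, h2⟩ := hnear (Sum.inr (Sum.inl b)) h hmem (ind_sub_norm (c12_disj e _ _))
    have h3 : h' (c1 e z) + h' (c2 e (Bs b z)) = 0 := hh'.2 z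
    have h4 := (ev (T h - h') (c1 e z)).trans h2
    have h5 := (ev (T h - h') (c2 e (Bs b z))).trans h2
    have h7 : T h = T (ind (c1 e '' A)) - T (ind (c2 e '' (Bs b '' A))) := by rw [hh, map_sub]
    rw [h7, lp.coeFn_sub, Pi.sub_apply, lp.coeFn_sub, Pi.sub_apply] at h4 h5
    have h8 := hT12 A (Bs b z)
    have h9 := hT21 (Bs b '' A) z
    set u1 := (T (ind (c1 e '' A))) (c1 e z)
    set u2 := (T (ind (c1 e '' A))) (c2 e (Bs b z))
    set v1 := (T (ind (c2 e '' (Bs b '' A)))) (c1 e z)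
    set v2 := (T (ind (c2 e '' (Bs b '' A)))) (c2 e (Bs b z))
    have h10 : u1 - v2 = (((u1 - v1 - h' (c1 e z)) + (u2 - v2 - h' (c2 e (Bs b z)))) - u2) + v1 := by
      have : u1 - v2 = (((u1 - v1 - h' (c1 e z)) + (u2 - v2 - h' (c2 e (Bs b z)))) - u2) + v1 +
        (h' (c1 e z) + h' (c2 e (Bs b z))) := by ring
      rw [this, h3, add_zero]
    rw [h10]
    refine (norm_add_le _ _).trans ?_
    have h11 := norm_sub_le ((u1 - v1 - h' (c1 e z)) + (u2 - v2 - h' (c2 e (Bs b z)))) u2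
    have h12 := norm_add_le (u1 - v1 - h' (c1 e z)) (u2 - v2 - h' (c2 e (Bs b z)))
    linarith
  have hBinv : ∀ (b : Fin 3) z (A : Set Om),
      ‖(T (ind (c1 e '' (Bs b '' A)))) (c1 e (Bs b z)) - (T (ind (c1 e '' A))) (c1 e z)‖ ≤ 48 * ε := by
    intro b z A
    have a1 := hrel b z A
    have a2 := hrel 0 (Bs b z) (Bs b '' A)
    have a3 : Bs 0 '' (Bs b '' A) = Bs b '' A := by
      simp [Bs]
    have a4 : Bs 0 (Bs b z) = Bs b z := rfl
    rw [a3, a4] at a2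
    have a5 : (T (ind (c1 e '' (Bs b '' A)))) (c1 e (Bs b z)) - (T (ind (c1 e '' A))) (c1 e z) =
        ((T (ind (c1 e '' (Bs b '' A)))) (c1 e (Bs b z)) - (T (ind (c2 e '' (Bs b '' A)))) (c2 e (Bs b z))) -
          ((T (ind (c1 e '' A))) (c1 e z) - (T (ind (c2 e '' (Bs b '' A)))) (c2 e (Bs b z))) := by ring
    rw [a5]
    refine (norm_sub_le _ _).trans ?_
    linarith
  -- the mass
  have hmass : ∀ z, 1 - 2 * ε ≤ RCLike.re ((T (ind (c1 e '' Set.univ))) (c1 e z)) := by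
    intro z
    have h1 := (RCLike.abs_re_le_norm _).trans ((ev _ (c1 e z)).trans ho)
    rw [lp.coeFn_sub, Pi.sub_apply, ind_mem (c1mem.mpr (Set.mem_univ z)), map_sub, RCLike.one_re, abs_le] at h1
    linarith [h1.1]
  have hadd : ∀ z (A B : Set Om), Disjoint A B →
      (T (ind (c1 e '' (A ∪ B)))) (c1 e z) = (T (ind (c1 e '' A))) (c1 e z) + (T (ind (c1 e '' B))) (c1 e z) := by
    intro z A B hAB
    rw [Set.image_union, ind_union ((Set.disjoint_image_iff (c1_inj e)).mpr hAB), map_add, lp.coeFn_add, Pi.add_apply]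
  have hpos : ∀ z (A : Set Om), -(20 * ε) ≤ RCLike.re ((T (ind (c1 e '' A))) (c1 e z)) := by
    intro z A
    have a1 := hmass z
    have a2 := hadd z A Aᶜ disjoint_compl_right
    rw [Set.union_compl_self] at a2
    rw [a2, map_add] at a1
    have a3 : Disjoint (c1 e '' Aᶜ) (c1 e '' A) :=
      (Set.disjoint_image_iff (c1_inj e)).mpr disjoint_compl_left
    obtain ⟨h', _, h1, h2⟩ := hnear (Sum.inl 0) (ind (c1 e '' Aᶜ) - ind (c1 e '' A)) (by
      intro n hn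
      rw [lp.coeFn_sub, Pi.sub_apply, ind_notMem, ind_notMem, sub_zero]
      · exact fun ⟨y, _, hy⟩ => hn ⟨y, hy⟩
      · exact fun ⟨y, _, hy⟩ => hn ⟨y, hy⟩) (ind_sub_norm a3)
    have a4 : ‖T (ind (c1 e '' Aᶜ) - ind (c1 e '' A))‖ ≤ 1 + 9 * ε := by
      have h3 : T (ind (c1 e '' Aᶜ) - ind (c1 e '' A)) =
        (T (ind (c1 e '' Aᶜ) - ind (c1 e '' A)) - h') + h' := by abel
      rw [h3]
      refine (norm_add_le _ _).trans ?_
      linarith
    have a5 := (RCLike.abs_re_le_norm _).trans ((ev _ (c1 e z)).trans a4)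
    rw [map_sub, lp.coeFn_sub, Pi.sub_apply, map_sub, abs_le] at a5
    linarith [a5.2]
  -- local
  have hloc : ∀ z (A : Set Om), (∀ y ∈ A, ¬ good z y) → RCLike.re ((T (ind (c1 e '' A))) (c1 e z)) ≤ 6 * ε := by
    intro z A hA
    obtain ⟨c, hc⟩ := exists_colr z
    obtain ⟨h', hh', h1, h2⟩ := hnear (Sum.inr (Sum.inr c)) (ind (c1 e '' A)) (by
      intro n hn
      refine ind_notMem fun ⟨y, hy, hyn⟩ => hn ⟨y, fun hyc => hA y hy (good_of_colr hc hyc), hyn⟩) (ind_norm _)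
    have h3 : h' (c1 e z) = 0 := hh' _ (fun h => (c1mem.mp h) hc)
    have h4 := (RCLike.abs_re_le_norm _).trans ((ev (T (ind (c1 e '' A)) - h') (c1 e z)).trans h2)
    rw [lp.coeFn_sub, Pi.sub_apply, h3, sub_zero] at h4
    exact (abs_le.mp h4).2
  -- the prime
  obtain ⟨n, hn, hn2⟩ : ∃ n : ℕ, (n + 1).Prime ∧ ∀ z ∈ fib n, ‖T (ind (c1 e '' (Dz z)))‖ ≤ ε := by
    by_contra hcon
    push Not at hcon
    choose z hz hz2 using hcon
    let ι := {n : ℕ // (n + 1).Prime}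
    have : Infinite ι := by
      have h1 : Function.Injective (fun p : Nat.Primes => (⟨p.1 - 1, by
          rw [Nat.sub_add_cancel p.2.one_lt.le]; exact p.2⟩ : ι)) := by
        intro p q h
        have h2 : p.1 - 1 = q.1 - 1 := congrArg Subtype.val h
        have := p.2.one_lt
        have := q.2.one_lt
        exact Subtype.ext (by omega)
      exact Infinite.of_injective _ h1
    obtain ⟨⟨n, hn⟩, h⟩ := small_image T hfin hε (fun i : ι => c1 e '' (Dz (z i.1 i.2))) (by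
      intro i j hij
      exact (Set.disjoint_image_iff (c1_inj e)).mpr
        (Dz_disjoint i.2 j.2 (hz i.1 i.2) (hz j.1 j.2) (fun h => hij (Subtype.ext h))))
    exact absurd h (not_le.mpr (hz2 n hn))
  refine kernel_contra (fun z A => RCLike.re ((T (ind (c1 e '' A))) (c1 e z))) (48 * ε) (by linarith)
    (fun z A B hAB => ?_) (fun z => ?_) (fun z A => ?_) (fun z A => ?_) (fun z A => ?_) (fun z A hA => ?_)
    (fib n) (fib_nonempty hn) (fib_B1 n) (fib_B2 n) (fun z hz => ?_)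
  · rw [hadd z A B hAB, map_add]
  · have := hmass z
    linarith
  · have := hpos z A
    linarith
  · rw [← map_sub]
    exact (RCLike.abs_re_le_norm _).trans (hBinv 1 z A)
  · rw [← map_sub]
    exact (RCLike.abs_re_le_norm _).trans (hBinv 2 z A)
  · have := hloc z A hA
    linarith
  · have h2 := hn2 z hz
    have h3 := (RCLike.abs_re_le_norm _).trans ((ev _ (c1 e z)).trans h2)
    have h4 := (abs_le.mp h3).2
    have h5 : RCLike.re ((T (ind (c1 e '' {y | w1 z y = 0 ∧ w2 z y = 0}))) (c1 e z)) ≤ ε := h4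
    linarith

/-- `ℓ_∞` (real or complex) has an equivalent norm `N` under which it fails the metric approximation
property, and even the `lam`-approximation property for every `lam ≤ 1 + 1 / 2001`. -/
theorem main (𝕜 : Type*) [RCLike 𝕜] :
    HasRenormingFailingAP 𝕜 (lp (fun _ : ℕ => 𝕜) ∞) (1 + 1 / 2001) := by
  classical
  obtain ⟨e⟩ : Nonempty (Ix ≃ ℕ) := nonempty_equiv_of_countable
  have hy : ∀ i, ‖(yy e i : LI 𝕜)‖ ≤ 1 := fun i => by
    unfold yy
    rw [lp.norm_single (by simp), norm_one]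
  refine ⟨msemi (yy e) (HI 𝕜 e), ⟨1 / 2, 2, by norm_num, fun x => ⟨?_, msemi_le _ _ x⟩⟩, fun lam hlam hAP => ?_⟩
  · have := norm_le_msemi (yy e) (HI 𝕜 e) hy x
    linarith
  obtain ⟨T, hfin, hT1, hT2⟩ := hAP (Set.range (yy (𝕜 := 𝕜) (p := ∞) e) ∪ {ind (c1 e '' Set.univ)})
    ((Set.finite_range _).union (Set.finite_singleton _)).isCompact (1 / 2001) (by norm_num)
  refine core_inf e T hfin (ε := 1 / 2001) (by norm_num) (by norm_num) ?_ ?_
  · intro i h hh hn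
    refine near (yy e) (HI 𝕜 e) (ph e) hy (fun i w => ?_) (ph_yy e) (fun i j h hh => ?_) (T : LI 𝕜 →ₗ[𝕜] LI 𝕜)
      (1 / 2001) (by norm_num) (fun w => ?_) (fun i => ?_) i h hh hn
    · exact lp.norm_apply_le_norm (by simp) w _
    · exact HI_zero e i j hh
    · exact (hT1 w).trans (mul_le_mul_of_nonneg_right hlam (apply_nonneg _ _))
    · exact hT2 _ (Or.inl ⟨i, rfl⟩)
  · refine (norm_le_msemi (yy e) (HI 𝕜 e) hy _).trans ?_
    have := hT2 (ind (c1 e '' Set.univ)) (Or.inr rfl)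
    linarith


end Pool.Agent.Helper81.MapRenorm.EllInfty
end
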