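import Mathlib
import Pool.Agent.Helper81.MapRenorm.Base

/-!
# `ℓ_1` has an equivalent norm without the metric approximation property
-/

open Pool.Agent.Helper81.MapRenorm
open scoped ENNReal

noncomputable section

namespace Pool.Agent.Helper81.MapRenorm.EllOne

variable {𝕜 : Type*} [RCLike 𝕜]

/-- `ℓ_1` -/
abbrev L1 (𝕜 : Type*) [RCLike 𝕜] : Type _ := lp (fun _ : ℕ => 𝕜) 1

lemma L1_summable (f : L1 𝕜) : Summable fun n => ‖f n‖ := by
  have := (lp.memℓp f).summable (by simp)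
  simpa using this

lemma L1_norm (f : L1 𝕜) : ‖f‖ = ∑' n, ‖f n‖ := by
  rw [lp.norm_eq_tsum_rpow (by simp)]
  simp

lemma ind_norm_le (A : Set ℕ) (f : ℕ → 𝕜) (n : ℕ) : ‖A.indicator f n‖ ≤ ‖f n‖ := norm_indicator_le_norm_self _ _

lemma ind_summable (A : Set ℕ) (f : L1 𝕜) : Summable fun n => A.indicator (fun n => f n) n :=
  Summable.of_norm_bounded (L1_summable f) fun n => ind_norm_le A _ n

/-- The sum over the coordinates in `A`. -/
def S (A : Set ℕ) : L1 𝕜 →ₗ[𝕜] 𝕜 where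
  toFun f := ∑' n, A.indicator (fun n => f n) n
  map_add' f g := by
    rw [← (ind_summable A f).tsum_add (ind_summable A g)]
    congr 1
    ext n
    by_cases h : n ∈ A
    · simp [h]
    · simp [h]
  map_smul' c f := by
    rw [RingHom.id_apply, smul_eq_mul, ← tsum_mul_left]
    congr 1
    ext n
    by_cases h : n ∈ A
    · simp [h]
    · simp [h]

lemma S_apply (A : Set ℕ) (f : L1 𝕜) : S A f = ∑' n, A.indicator (fun n => f n) n := rfl

lemma S_norm (A : Set ℕ) (f : L1 𝕜) : ‖S A f‖ ≤ ‖f‖ := by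
  rw [L1_norm, S_apply]
  refine tsum_of_norm_bounded (L1_summable f).hasSum fun n => ind_norm_le A _ n

lemma S_sub_norm {A B : Set ℕ} (hAB : Disjoint A B) (f : L1 𝕜) : ‖S A f - S B f‖ ≤ ‖f‖ := by
  rw [L1_norm, S_apply, S_apply, ← (ind_summable A f).tsum_sub (ind_summable B f)]
  refine tsum_of_norm_bounded (L1_summable f).hasSum fun n => ?_
  by_cases h : n ∈ A
  · have h' : n ∉ B := fun h' => Set.disjoint_left.mp hAB h h'
    simp [h, h']
  · by_cases h' : n ∈ B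
    · simp [h, h']
    · simp [h, h']

lemma S_union {A B : Set ℕ} (hAB : Disjoint A B) (f : L1 𝕜) : S (A ∪ B) f = S A f + S B f := by
  rw [S_apply, S_apply, S_apply, ← (ind_summable A f).tsum_add (ind_summable B f),
    Set.indicator_union_of_disjoint hAB]

lemma S_single (A : Set ℕ) [DecidablePred (· ∈ A)] (n : ℕ) (a : 𝕜) : S A (lp.single 1 n a : L1 𝕜) = if n ∈ A then a else 0 := by
  rw [S_apply, tsum_eq_single n]
  · split_ifs with h
    · rw [Set.indicator_of_mem h, lp.single_apply_self]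
    · rw [Set.indicator_of_notMem h]
  · intro m hm
    by_cases h : m ∈ A
    · rw [Set.indicator_of_mem h, lp.single_apply_ne _ _ _ hm]
    · rw [Set.indicator_of_notMem h]

lemma S_suppS {A D : Set ℕ} (hAD : Disjoint A D) {f : L1 𝕜} (hf : f ∈ suppS (𝕜 := 𝕜) (p := 1) D) :
    S A f = 0 := by
  rw [S_apply]
  have : (fun n => A.indicator (fun n => f n) n) = fun _ => 0 := by
    ext n
    by_cases h : n ∈ A
    · rw [Set.indicator_of_mem h]
      exact hf n fun h' => Set.disjoint_left.mp hAD h h'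
    · rw [Set.indicator_of_notMem h]
  rw [this, tsum_zero]

lemma S_image {α : Type*} {c : α → ℕ} (hc : Function.Injective c) (A : Set α) (f : L1 𝕜) :
    S (c '' A) f = ∑' x, A.indicator (fun x => f (c x)) x := by
  rw [S_apply, ← hc.tsum_eq (f := fun n => (c '' A).indicator (fun n => f n) n)]
  · congr 1
    ext x
    by_cases h : x ∈ A
    · rw [Set.indicator_of_mem h, Set.indicator_of_mem (Set.mem_image_of_mem c h)]
    · rw [Set.indicator_of_notMem h, Set.indicator_of_notMem]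
      rintro ⟨y, hy, hyx⟩
      exact h (hc hyx ▸ hy)
  · intro n hn
    rw [Function.mem_support] at hn
    by_contra h
    apply hn
    apply Set.indicator_of_notMem
    rintro ⟨y, _, rfl⟩
    exact h ⟨y, rfl⟩

/-- if `f` satisfies the relation then the sums cancel -/
lemma S_relS {e : Ix ≃ ℕ} {b : Equiv.Perm Om} {f : L1 𝕜} (hf : f ∈ relS (𝕜 := 𝕜) (p := 1) e b) (A : Set Om) :
    S (c1 e '' A) f + S (c2 e '' (b '' A)) f = 0 := by
  have e1 : c2 e '' (b '' A) = (c2 e ∘ b) '' A := by rw [Set.image_comp]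
  have i1 := c1_inj e
  have i2 : Function.Injective (c2 e ∘ b) := (c2_inj e).comp b.injective
  rw [e1, S_image i1, S_image i2]
  have s1 : Summable fun x => A.indicator (fun x => f (c1 e x)) x :=
    Summable.of_norm_bounded ((L1_summable f).comp_injective i1) fun n => norm_indicator_le_norm_self _ _
  have s2 : Summable fun x => A.indicator (fun x => f ((c2 e ∘ b) x)) x :=
    Summable.of_norm_bounded ((L1_summable f).comp_injective i2) fun n => norm_indicator_le_norm_self _ _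
  rw [← s1.tsum_add s2]
  have : (fun x => A.indicator (fun x => f (c1 e x)) x + A.indicator (fun x => f ((c2 e ∘ b) x)) x) = fun _ => 0 := by
    ext x
    by_cases h : x ∈ A
    · rw [Set.indicator_of_mem h, Set.indicator_of_mem h]
      exact hf.2 x
    · rw [Set.indicator_of_notMem h, Set.indicator_of_notMem h, add_zero]
  rw [this, tsum_zero]

/-- the marked subspaces of `ℓ_1` -/
def H1 (𝕜 : Type*) [RCLike 𝕜] (e : Ix ≃ ℕ) : MI → Submodule 𝕜 (L1 𝕜)
  | Sum.inl 0 => suppS (Set.range (c1 e))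
  | Sum.inl 1 => suppS (Set.range (c2 e))
  | Sum.inl 2 => suppS (Set.range (c1 e)) ⊓ LinearMap.ker (S Set.univ)
  | Sum.inr (Sum.inl b) => relS e (Bs b)
  | Sum.inr (Sum.inr c) => suppS (c1 e '' colr c)

lemma H1_zero (e : Ix ≃ ℕ) (i j : MI) {h : L1 𝕜} (hh : h ∈ H1 𝕜 e j) : h (e (Sum.inl i)) = 0 := by
  rcases j with j | j | j
  · fin_cases j
    · exact hh _ (by rintro ⟨x, hx⟩; exact inl_ne_c1 e i x hx.symm)
    · exact hh _ (by rintro ⟨x, hx⟩; exact inl_ne_c2 e i x hx.symm)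
    · exact hh.1 _ (by rintro ⟨x, hx⟩; exact inl_ne_c1 e i x hx.symm)
  · exact hh.1 i
  · exact hh _ (by rintro ⟨x, _, hx⟩; exact inl_ne_c1 e i x hx.symm)

lemma sg_norm (n : ℕ) : ‖(lp.single 1 n (1 : 𝕜) : L1 𝕜)‖ = 1 := by
  rw [lp.norm_single (by simp), norm_one]

/-- small tails of a single vector -/
lemma tail_one (f : L1 𝕜) {δ : ℝ} (hδ : 0 < δ) :
    ∃ G : Finset ℕ, ∀ A : Set ℕ, Disjoint A (G : Set ℕ) → ‖S A f‖ ≤ δ := by
  have h := lp.hasSum_single (p := 1) (by simp) f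
  rw [HasSum, SummationFilter.unconditional_filter, Metric.tendsto_atTop] at h
  obtain ⟨G, hG⟩ := h δ hδ
  refine ⟨G, fun A hA => ?_⟩
  have h1 := hG G le_rfl
  rw [dist_eq_norm] at h1
  have h2 : S A (∑ i ∈ G, lp.single 1 i (f i) : L1 𝕜) = 0 := by
    classical
    rw [map_sum]
    refine Finset.sum_eq_zero fun i hi => ?_
    rw [S_single, if_neg]
    exact fun h => Set.disjoint_left.mp hA h hi
  have h3 := S_norm A ((∑ i ∈ G, lp.single 1 i (f i) : L1 𝕜) - f)
  rw [map_sub, h2, zero_sub, norm_neg] at h3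
  exact h3.trans h1.le

/-- uniformly small tails on the image of the ball -/
lemma tail_unif (T : L1 𝕜 →L[𝕜] L1 𝕜)
    (hT : FiniteDimensional 𝕜 (LinearMap.range (T : L1 𝕜 →ₗ[𝕜] L1 𝕜))) {δ : ℝ} (hδ : 0 < δ) :
    ∃ G : Finset ℕ, ∀ A : Set ℕ, Disjoint A (G : Set ℕ) → ∀ w : L1 𝕜, ‖w‖ ≤ 1 → ‖S A (T w)‖ ≤ δ := by
  classical
  obtain ⟨F, hF, hF2⟩ := tot T hT (half_pos hδ)
  choose G hG using fun f : L1 𝕜 => tail_one f (half_pos hδ)
  refine ⟨hF.toFinset.biUnion G, fun A hA w hw => ?_⟩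
  obtain ⟨c, hc, hc2⟩ := hF2 w hw
  have h1 : Disjoint A (G c : Set ℕ) := by
    refine hA.mono_right ?_
    intro n hn
    rw [Finset.mem_coe, Finset.mem_biUnion]
    exact ⟨c, hF.mem_toFinset.mpr hc, hn⟩
  have h2 := hG c A h1
  have h3 := S_norm A (T w - c)
  rw [map_sub] at h3
  have h4 : S A (T w) = (S A (T w) - S A c) + S A c := by ring
  rw [h4]
  refine (norm_add_le _ _).trans ?_
  linarith

/-- The core of the argument in `ℓ_1`. -/
theorem core_one (e : Ix ≃ ℕ) (T : L1 𝕜 →L[𝕜] L1 𝕜)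
    (hfin : FiniteDimensional 𝕜 (LinearMap.range (T : L1 𝕜 →ₗ[𝕜] L1 𝕜))) {ε : ℝ} (hε : 0 < ε)
    (hε2 : ε < 1 / 2000)
    (hnear : ∀ i, ∀ h ∈ H1 𝕜 e i, ‖h‖ ≤ 1 → ∃ h' ∈ H1 𝕜 e i, ‖h'‖ ≤ 1 + 3 * ε ∧ ‖T h - h'‖ ≤ 6 * ε)
    (o : Om) (ho : ‖T (lp.single 1 (c1 e o) 1) - lp.single 1 (c1 e o) 1‖ ≤ 2 * ε) : False := by
  classical
  -- abbreviations
  set s1 : Om → L1 𝕜 := fun z => lp.single 1 (c1 e z) 1 with hs1
  set s2 : Om → L1 𝕜 := fun z => lp.single 1 (c2 e z) 1 with hs2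
  have n1 : ∀ z, ‖s1 z‖ = 1 := fun z => sg_norm _
  have n2 : ∀ z, ‖s2 z‖ = 1 := fun z => sg_norm _
  have half_le : ∀ a b : L1 𝕜, ‖a‖ = 1 → ‖b‖ = 1 → ‖(2⁻¹ : 𝕜) • (a - b)‖ ≤ 1 := by
    intro a b ha hb
    rw [norm_smul, norm_inv, RCLike.norm_ofNat]
    have := norm_sub_le a b
    rw [ha, hb] at this
    linarith
  have two_mul_half : ∀ a : 𝕜, a = 2 * (2⁻¹ * a) := fun a => by
    rw [← mul_assoc, mul_inv_cancel₀ two_ne_zero, one_mul]
  -- the images of the first copy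
  have hT1 : ∀ z, ∃ h' ∈ suppS (𝕜 := 𝕜) (p := 1) (Set.range (c1 e)), ‖h'‖ ≤ 1 + 3 * ε ∧ ‖T (s1 z) - h'‖ ≤ 6 * ε := by
    intro z
    refine hnear (Sum.inl 0) (s1 z) ?_ (n1 z).le
    intro n hn
    refine lp.single_apply_ne _ _ _ fun h => hn ⟨z, h.symm⟩
  have hT2 : ∀ z, ∃ h' ∈ suppS (𝕜 := 𝕜) (p := 1) (Set.range (c2 e)), ‖h'‖ ≤ 1 + 3 * ε ∧ ‖T (s2 z) - h'‖ ≤ 6 * ε := by
    intro z
    refine hnear (Sum.inl 1) (s2 z) ?_ (n2 z).le
    intro n hn
    refine lp.single_apply_ne _ _ _ fun h => hn ⟨z, h.symm⟩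
  have hTn : ∀ z, ‖T (s1 z)‖ ≤ 1 + 9 * ε := by
    intro z
    obtain ⟨h', _, h1, h2⟩ := hT1 z
    have h3 : T (s1 z) = (T (s1 z) - h') + h' := by abel
    rw [h3]
    refine (norm_add_le _ _).trans ?_
    linarith
  -- small on the other copy
  have hS12 : ∀ z (A : Set Om), ‖S (c2 e '' A) (T (s1 z))‖ ≤ 6 * ε := by
    intro z A
    obtain ⟨h', hh', h1, h2⟩ := hT1 z
    have h3 : S (c2 e '' A) h' = 0 := by
      refine S_suppS ?_ hh'
      rw [← Set.image_univ]
      exact (c12_disj e _ _).symm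
    have h4 : S (c2 e '' A) (T (s1 z)) = S (c2 e '' A) (T (s1 z) - h') := by
      rw [map_sub, h3, sub_zero]
    rw [h4]
    exact (S_norm _ _).trans h2
  have hS21 : ∀ z (A : Set Om), ‖S (c1 e '' A) (T (s2 z))‖ ≤ 6 * ε := by
    intro z A
    obtain ⟨h', hh', h1, h2⟩ := hT2 z
    have h3 : S (c1 e '' A) h' = 0 := by
      refine S_suppS ?_ hh'
      rw [← Set.image_univ]
      exact c12_disj e _ _
    have h4 : S (c1 e '' A) (T (s2 z)) = S (c1 e '' A) (T (s2 z) - h') := by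
      rw [map_sub, h3, sub_zero]
    rw [h4]
    exact (S_norm _ _).trans h2
  -- relations
  have hrel : ∀ (b : Fin 3) z (A : Set Om),
      ‖S (c1 e '' A) (T (s1 z)) - S (c2 e '' (Bs b '' A)) (T (s2 (Bs b z)))‖ ≤ 24 * ε := by
    intro b z A
    set h : L1 𝕜 := (2⁻¹ : 𝕜) • (s1 z - s2 (Bs b z)) with hh
    have hmem : h ∈ relS (𝕜 := 𝕜) (p := 1) e (Bs b) := by
      refine ⟨fun i => ?_, fun x => ?_⟩
      · rw [hh, lp.coeFn_smul, Pi.smul_apply, lp.coeFn_sub, Pi.sub_apply, hs1, hs2]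
        simp only
        rw [lp.single_apply_ne _ _ _ (inl_ne_c1 e i _), lp.single_apply_ne _ _ _ (inl_ne_c2 e i _)]
        simp
      · rw [hh, lp.coeFn_smul, Pi.smul_apply, Pi.smul_apply, lp.coeFn_sub, Pi.sub_apply, Pi.sub_apply, hs1, hs2]
        simp only
        change (2⁻¹ : 𝕜) • ((lp.single 1 (c1 e z) (1 : 𝕜) : L1 𝕜) (c1 e x) - (lp.single 1 (c2 e (Bs b z)) (1 : 𝕜) : L1 𝕜) (c1 e x)) +
          (2⁻¹ : 𝕜) • ((lp.single 1 (c1 e z) (1 : 𝕜) : L1 𝕜) (c2 e (Bs b x)) - (lp.single 1 (c2 e (Bs b z)) (1 : 𝕜) : L1 𝕜) (c2 e (Bs b x))) = 0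
        rw [lp.single_apply_ne _ (c2 e (Bs b z)) _ (c1_ne_c2 e _ _), lp.single_apply_ne _ (c1 e z) _ (c2_ne_c1 e _ _)]
        rcases eq_or_ne x z with rfl | hx
        · rw [lp.single_apply_self, lp.single_apply_self]
          simp
        · rw [lp.single_apply_ne _ _ _ (fun h => hx (c1_inj e h)),
            lp.single_apply_ne _ _ _ (fun h => hx ((Bs b).injective (c2_inj e h)))]
          simp
    obtain ⟨h', hh', h1, h2⟩ := hnear (Sum.inr (Sum.inl b)) h hmem (half_le _ _ (n1 _) (n2 _))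
    have h3 := S_relS (𝕜 := 𝕜) hh' A
    have hd : Disjoint (c1 e '' A) (c2 e '' (Bs b '' A)) := c12_disj e _ _
    have h4 : ‖S (c1 e '' A) (T h) + S (c2 e '' (Bs b '' A)) (T h)‖ ≤ 6 * ε := by
      have h5 := S_norm (c1 e '' A ∪ c2 e '' (Bs b '' A)) (T h - h')
      rw [S_union hd, map_sub, map_sub] at h5
      have h6 : S (c1 e '' A) (T h) - S (c1 e '' A) h' + (S (c2 e '' (Bs b '' A)) (T h) - S (c2 e '' (Bs b '' A)) h') =
          S (c1 e '' A) (T h) + S (c2 e '' (Bs b '' A)) (T h) -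
            (S (c1 e '' A) h' + S (c2 e '' (Bs b '' A)) h') := by ring
      rw [h6, h3, sub_zero] at h5
      exact h5.trans h2
    have h7 : T h = (2⁻¹ : 𝕜) • (T (s1 z) - T (s2 (Bs b z))) := by rw [hh, map_smul, map_sub]
    rw [h7, map_smul, map_smul, map_sub, map_sub, smul_eq_mul, smul_eq_mul, ← mul_add, norm_mul, norm_inv,
      RCLike.norm_ofNat] at h4
    have h8 := hS12 z (Bs b '' A)
    have h9 := hS21 (Bs b z) A
    set u1 := S (c1 e '' A) (T (s1 z))
    set u2 := S (c2 e '' (Bs b '' A)) (T (s1 z))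
    set v1 := S (c1 e '' A) (T (s2 (Bs b z)))
    set v2 := S (c2 e '' (Bs b '' A)) (T (s2 (Bs b z)))
    have h10 : u1 - v2 = (u1 - v1 + (u2 - v2)) - u2 + v1 := by ring
    rw [h10]
    refine (norm_add_le _ _).trans ?_
    have h11 := norm_sub_le (u1 - v1 + (u2 - v2)) u2
    linarith
  have hBinv : ∀ (b : Fin 3) z (A : Set Om),
      ‖S (c1 e '' (Bs b '' A)) (T (s1 (Bs b z))) - S (c1 e '' A) (T (s1 z))‖ ≤ 48 * ε := by
    intro b z A
    have a1 := hrel b z A
    have a2 := hrel 0 (Bs b z) (Bs b '' A)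
    have a3 : Bs 0 '' (Bs b '' A) = Bs b '' A := by
      simp [Bs]
    have a4 : Bs 0 (Bs b z) = Bs b z := rfl
    rw [a3, a4] at a2
    have a5 : S (c1 e '' (Bs b '' A)) (T (s1 (Bs b z))) - S (c1 e '' A) (T (s1 z)) =
        (S (c1 e '' (Bs b '' A)) (T (s1 (Bs b z))) - S (c2 e '' (Bs b '' A)) (T (s2 (Bs b z)))) -
          (S (c1 e '' A) (T (s1 z)) - S (c2 e '' (Bs b '' A)) (T (s2 (Bs b z)))) := by ring
    rw [a5]
    refine (norm_sub_le _ _).trans ?_
    linarith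
  -- the mass
  have hmass : ∀ z, 1 - 14 * ε - 6 * ε ≤ RCLike.re (S (c1 e '' Set.univ) (T (s1 z))) := by
    intro z
    set h : L1 𝕜 := (2⁻¹ : 𝕜) • (s1 z - s1 o) with hh
    have hmem : h ∈ H1 𝕜 e (Sum.inl 2) := by
      refine ⟨?_, ?_⟩
      · intro n hn
        rw [hh, lp.coeFn_smul, Pi.smul_apply, lp.coeFn_sub, Pi.sub_apply, hs1]
        simp only
        rw [lp.single_apply_ne _ _ _ (fun h => hn ⟨z, h.symm⟩), lp.single_apply_ne _ _ _ (fun h => hn ⟨o, h.symm⟩)]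
        simp
      · rw [SetLike.mem_coe, LinearMap.mem_ker, hh, map_smul, map_sub, hs1]
        simp only
        rw [S_single, S_single]
        simp
    obtain ⟨h', hh', h1, h2⟩ := hnear (Sum.inl 2) h hmem (half_le _ _ (n1 _) (n1 _))
    have h3 : S Set.univ h' = 0 := hh'.2
    have h4 : ‖S Set.univ (T h)‖ ≤ 6 * ε := by
      have h5 := S_norm Set.univ (T h - h')
      rw [map_sub, h3, sub_zero] at h5
      exact h5.trans h2
    have h7 : T h = (2⁻¹ : 𝕜) • (T (s1 z) - T (s1 o)) := by rw [hh, map_smul, map_sub]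
    rw [h7, map_smul, map_sub, smul_eq_mul, norm_mul, norm_inv, RCLike.norm_ofNat] at h4
    have h8 : ‖S Set.univ (T (s1 o)) - 1‖ ≤ 2 * ε := by
      have h9 := S_norm Set.univ (T (s1 o) - s1 o)
      have h10 : S Set.univ (s1 o) = 1 := by
        rw [hs1]
        simp only
        rw [S_single, if_pos (Set.mem_univ _)]
      rw [map_sub, h10] at h9
      exact h9.trans ho
    have h11 : ‖S Set.univ (T (s1 z)) - 1‖ ≤ 14 * ε := by
      have h12 : S Set.univ (T (s1 z)) - 1 = (S Set.univ (T (s1 z)) - S Set.univ (T (s1 o))) + (S Set.univ (T (s1 o)) - 1) := by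
        ring
      rw [h12]
      refine (norm_add_le _ _).trans ?_
      linarith
    -- the part outside the first copy
    obtain ⟨g, hg, g1, g2⟩ := hT1 z
    have h13 : ‖S (Set.range (c1 e))ᶜ (T (s1 z))‖ ≤ 6 * ε := by
      have h14 : S (Set.range (c1 e))ᶜ g = 0 := S_suppS disjoint_compl_left hg
      have h15 := S_norm (Set.range (c1 e))ᶜ (T (s1 z) - g)
      rw [map_sub, h14, sub_zero] at h15
      exact h15.trans g2
    have h16 : S Set.univ (T (s1 z)) = S (c1 e '' Set.univ) (T (s1 z)) + S (Set.range (c1 e))ᶜ (T (s1 z)) := by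
      rw [Set.image_univ, ← S_union disjoint_compl_right, Set.union_compl_self]
    have h17 := RCLike.abs_re_le_norm (S Set.univ (T (s1 z)) - 1)
    have h18 := RCLike.abs_re_le_norm (S (Set.range (c1 e))ᶜ (T (s1 z)))
    rw [map_sub, h16, map_add, RCLike.one_re] at h17
    rw [h16] at h11
    rw [abs_le] at h17 h18
    linarith [h17.1, h18.2]
  -- positivity
  have hadd : ∀ z (A B : Set Om), Disjoint A B →
      S (c1 e '' (A ∪ B)) (T (s1 z)) = S (c1 e '' A) (T (s1 z)) + S (c1 e '' B) (T (s1 z)) := by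
    intro z A B hAB
    rw [Set.image_union, S_union]
    exact (Set.disjoint_image_iff (c1_inj e)).mpr hAB
  have hpos : ∀ z (A : Set Om), -(20 * ε) ≤ RCLike.re (S (c1 e '' A) (T (s1 z))) := by
    intro z A
    have a1 := hmass z
    have a2 := hadd z A Aᶜ disjoint_compl_right
    rw [Set.union_compl_self] at a2
    rw [a2, map_add] at a1
    have a3 : Disjoint (c1 e '' Aᶜ) (c1 e '' A) :=
      (Set.disjoint_image_iff (c1_inj e)).mpr disjoint_compl_left
    have a4 := S_sub_norm a3 (T (s1 z))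
    have a5 := (RCLike.abs_re_le_norm _).trans (a4.trans (hTn z))
    rw [map_sub, abs_le] at a5
    linarith [a5.2]
  -- local
  have hloc : ∀ z (A : Set Om), (∀ y ∈ A, ¬ good z y) → RCLike.re (S (c1 e '' A) (T (s1 z))) ≤ 6 * ε := by
    intro z A hA
    obtain ⟨c, hc⟩ := exists_colr z
    obtain ⟨h', hh', h1, h2⟩ := hnear (Sum.inr (Sum.inr c)) (s1 z) (by
      intro n hn
      exact lp.single_apply_ne _ _ _ fun h => hn ⟨z, hc, h.symm⟩) (n1 z).le
    have h3 : S (c1 e '' A) h' = 0 := by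
      refine S_suppS ?_ hh'
      refine (Set.disjoint_image_iff (c1_inj e)).mpr ?_
      rw [Set.disjoint_left]
      intro y hy hy'
      exact hA y hy (good_of_colr hc hy')
    have h4 := S_norm (c1 e '' A) (T (s1 z) - h')
    rw [map_sub, h3, sub_zero] at h4
    have h5 := (RCLike.abs_re_le_norm _).trans (h4.trans h2)
    exact (abs_le.mp h5).2
  -- the prime
  obtain ⟨G, hG⟩ := tail_unif T hfin hε
  obtain ⟨M, hM⟩ : ∃ M : ℕ, ∀ y : Om, c1 e y ∈ G → y.1 < M := by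
    have hfinite : {y : Om | c1 e y ∈ G}.Finite := by
      have := Set.Finite.preimage (f := c1 e) (Set.injOn_of_injective (c1_inj e)) G.finite_toSet
      exact this
    obtain ⟨M, hM⟩ := (hfinite.image (fun y : Om => y.1)).bddAbove
    exact ⟨M + 1, fun y hy => Nat.lt_succ_of_le (hM ⟨y, hy, rfl⟩)⟩
  obtain ⟨p, hpM, hp⟩ := Nat.exists_infinite_primes (M + 1)
  obtain ⟨n, rfl⟩ : ∃ n, p = n + 1 := ⟨p - 1, by omega⟩
  refine kernel_contra (fun z A => RCLike.re (S (c1 e '' A) (T (s1 z)))) (48 * ε) (by linarith)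
    (fun z A B hAB => ?_) (fun z => ?_) (fun z A => ?_) (fun z A => ?_) (fun z A => ?_) (fun z A hA => ?_)
    (fib n) (fib_nonempty hp) (fib_B1 n) (fib_B2 n) (fun z hz => ?_)
  · rw [hadd z A B hAB, map_add]
  · have := hmass z
    linarith
  · have := hpos z A
    linarith
  · rw [← map_sub]
    exact (RCLike.abs_re_le_norm _).trans (hBinv 1 z A)
  · rw [← map_sub]
    exact (RCLike.abs_re_le_norm _).trans (hBinv 2 z A)
  · have := hloc z A hA
    linarith
  · have h1 : Disjoint (c1 e '' {y | w1 z y = 0 ∧ w2 z y = 0}) (G : Set ℕ) := by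
      rw [Set.disjoint_left]
      rintro _ ⟨y, hy, rfl⟩ hG'
      have := hM y hG'
      have := fib_le hp hz hy.1 hy.2
      omega
    have h2 := hG _ h1 (s1 z) (n1 z).le
    have h3 := (RCLike.abs_re_le_norm _).trans h2
    have h4 := (abs_le.mp h3).2
    linarith

/-- `ℓ_1` (real or complex) has an equivalent norm `N` under which it fails the metric approximation
property, and even the `lam`-approximation property for every `lam ≤ 1 + 1 / 2001`. -/
theorem main (𝕜 : Type*) [RCLike 𝕜] :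
    HasRenormingFailingAP 𝕜 (lp (fun _ : ℕ => 𝕜) 1) (1 + 1 / 2001) := by
  classical
  obtain ⟨e⟩ : Nonempty (Ix ≃ ℕ) := nonempty_equiv_of_countable
  have hy : ∀ i, ‖(yy e i : L1 𝕜)‖ ≤ 1 := fun i => (sg_norm _).le
  refine ⟨msemi (yy e) (H1 𝕜 e), ⟨1 / 2, 2, by norm_num, fun x => ⟨?_, msemi_le _ _ x⟩⟩, fun lam hlam hAP => ?_⟩
  · have := norm_le_msemi (yy e) (H1 𝕜 e) hy x
    linarith
  let o : Om := ⟨0, 0⟩
  obtain ⟨T, hfin, hT1, hT2⟩ := hAP (Set.range (yy (𝕜 := 𝕜) (p := 1) e) ∪ {lp.single 1 (c1 e o) 1})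
    ((Set.finite_range _).union (Set.finite_singleton _)).isCompact (1 / 2001) (by norm_num)
  refine core_one e T hfin (ε := 1 / 2001) (by norm_num) (by norm_num) ?_ o ?_
  · intro i h hh hn
    refine near (yy e) (H1 𝕜 e) (ph e) hy (fun i w => ?_) (ph_yy e) (fun i j h hh => ?_) (T : L1 𝕜 →ₗ[𝕜] L1 𝕜)
      (1 / 2001) (by norm_num) (fun w => ?_) (fun i => ?_) i h hh hn
    · exact lp.norm_apply_le_norm (by simp) w _
    · exact H1_zero e i j hh
    · exact (hT1 w).trans (mul_le_mul_of_nonneg_right hlam (apply_nonneg _ _))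
    · exact hT2 _ (Or.inl ⟨i, rfl⟩)
  · refine (norm_le_msemi (yy e) (H1 𝕜 e) hy _).trans ?_
    have := hT2 (lp.single 1 (c1 e o) 1) (Or.inr rfl)
    linarith


end Pool.Agent.Helper81.MapRenorm.EllOne
end
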